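import Mathlib

/-! # Lines of flag varieties in Plücker coordinates

A partial flag of `k^m` of type `Δ` (a set of dimensions `0 < d < m`) is given by the rows
`u 0, u 1, ...` (the first `m` linearly independent): `V_d` is spanned by `u 0, ..., u (d - 1)`.
The line of class `κ ∈ Δ` through it: the `V_d`, `d ≠ κ`, are fixed, and `V_κ` is spanned by
`u 0, ..., u (κ - 2)` and `s u (κ - 1) + t u κ`. -/

set_option autoImplicit false

namespace Pool.Agent.Lib.MP_1e3e9c_ag.FL

open Polynomial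

/-- the minor of the rows `0, ..., d - 1` and the columns `σ` -/
def plu {R : Type*} [CommRing R] {m : ℕ} (u : ℕ → Fin m → R) (d : ℕ) (σ : Fin d → Fin m) : R :=
  Matrix.det (Matrix.of fun i j : Fin d => u i (σ j))

/-- the indices of the Plücker coordinates -/
abbrev PIdx (m : ℕ) (Δ : Finset ℕ) : Type := Σ d : Δ, (Fin (d : ℕ) → Fin m)

/-- the rows `u` with the row `κ - 1` replaced by `s u (κ - 1) + t u κ` -/
def pencil {R : Type*} [CommRing R] {m : ℕ} (u : ℕ → Fin m → R) (κ : ℕ) (s t : R) :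
    ℕ → Fin m → R :=
  fun i l => if i = κ - 1 then s * u (κ - 1) l + t * u κ l else u i l

/-- the Plücker coordinates of the point `(s : t)` of the line -/
def linePt {R : Type*} [CommRing R] {m : ℕ} (Δ : Finset ℕ) (u : ℕ → Fin m → R) (κ : ℕ) (s t : R) :
    PIdx m Δ → R :=
  fun p => if (p.1 : ℕ) = κ then plu (pencil u κ s t) p.1 p.2 else plu u p.1 p.2

/-- multidegrees: the Plücker coordinate of `V_d` has degree one in the factor `d` -/
def pdeg (m : ℕ) (Δ : Finset ℕ) : PIdx m Δ → (Δ → ℕ) := fun p => Pi.single p.1 1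

/-- `(i, l)` is a coordinate of the big cell of the flag variety -/
def IsRoot (Δ : Finset ℕ) (i l : ℕ) : Prop := ∃ d ∈ Δ, i < d ∧ d ≤ l

instance (Δ : Finset ℕ) (i l : ℕ) : Decidable (IsRoot Δ i l) := by
  unfold IsRoot; infer_instance

/-- the dimension of the flag variety -/
def dimFl (m : ℕ) (Δ : Finset ℕ) : ℕ :=
  (Finset.univ.filter fun p : Fin m × Fin m => IsRoot Δ p.1 p.2).card

/-- the columns `0, ..., d - 1` -/
def idc {m d : ℕ} (h : d ≤ m) : Fin d → Fin m := Fin.castLE h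

/-- the rows of the deformation of the standard flag: `x0 i l` at the roots `(i, l) ≠ (κ - 1, κ)`, and the
second coefficients `x1` -/
def rows {R : Type*} [CommRing R] (m : ℕ) (Δ : Finset ℕ) (κ lo hi : ℕ) (x0 x1 : ℕ → ℕ → R) :
    ℕ → Fin m → R :=
  fun i l =>
    if (l : ℕ) = i then 1
    else if IsRoot Δ i l ∧ ¬ (i = κ - 1 ∧ (l : ℕ) = κ) then x0 i l
    else if (l : ℕ) = κ - 1 ∧ lo ≤ i ∧ i < κ - 1 then - x1 i κ
    else if i = κ ∧ κ < (l : ℕ) ∧ (l : ℕ) < hi then x1 (κ - 1) l
    else 0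

end Pool.Agent.Lib.MP_1e3e9c_ag.FL
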