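import Pool.Agent.Lib.MP_1e3e9c_ag.FL.Defs

/-! # Desc: descent to an algebraically closed field

JOB Desc (80 lines; compare the complete file `RC/Desc.lean`).
`spec_point`: let `I` be the kernel of `aeval x : MvPolynomial N k →ₐ[k] κ'`, a prime ideal (`κ'` is a field), so `I` is radical and
`δ ∉ I`; by the Nullstellensatz (`MvPolynomial.vanishingIdeal_zeroLocus_eq_radical`) there is a point `y` of the zero locus of `I` at which `δ` does not
vanish.
`descend3`: `N = Fin m × Fin m`, `x (i, l) = w i l`, `δ` the determinant of the generic matrix.  For the universal rows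
`W i l = X (i, l)` (`i < m`, else `0`) and `s t : k` the polynomial `P = aeval (linePt Δ W κ (C s) (C t)) (F j) : MvPolynomial N k` is mapped by `aeval x` to
`aeval (linePt Δ w κ (algebraMap k κ' s) (algebraMap k κ' t)) (F j)` (`linePt` commutes with ring homs: `RingHom.map_det`; only the rows
`< m` matter because `d < m` for `d ∈ Δ` and the pencil uses the rows `κ - 1`, `κ < m`), which is zero by hypothesis.  So `eval y P = 0`, i.e.
`eval (linePt Δ w' κ s t) (F j) = 0` for `w' i l = y (i, l)` (`i < m`, else `0`).  `det w' ≠ 0` gives the linear independence of the rows. -/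

set_option autoImplicit false

namespace Pool.Agent.Lib.MP_1e3e9c_ag.FL

theorem spec_point {k κ' N : Type*} [Field k] [IsAlgClosed k] [Field κ'] [Algebra k κ'] [Finite N]
    (x : N → κ') (δ : MvPolynomial N k) (hδ : MvPolynomial.aeval x δ ≠ 0) :
    ∃ y : N → k, (∀ p : MvPolynomial N k, MvPolynomial.aeval x p = 0 → MvPolynomial.eval y p = 0) ∧
      MvPolynomial.eval y δ ≠ 0 := by
  classical
  let φ : MvPolynomial N k →ₐ[k] κ' := MvPolynomial.aeval x
  let I : Ideal (MvPolynomial N k) := RingHom.ker φ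
  have hI : I.IsPrime := RingHom.ker_isPrime φ
  have hδI : δ ∉ MvPolynomial.vanishingIdeal k (MvPolynomial.zeroLocus k I) := by
    rw [MvPolynomial.IsPrime.vanishingIdeal_zeroLocus]
    exact hδ
  rw [MvPolynomial.mem_vanishingIdeal_iff] at hδI
  push Not at hδI
  obtain ⟨y, hyI, hy⟩ := hδI
  rw [MvPolynomial.mem_zeroLocus_iff] at hyI
  refine ⟨y, fun p hp => ?_, ?_⟩
  · have h1 := hyI p hp
    simpa [MvPolynomial.aeval_eq_eval] using h1
  · simpa [MvPolynomial.aeval_eq_eval] using hy

private theorem plu_map {R S : Type*} [CommRing R] [CommRing S] (φ : R →+* S) {m : ℕ}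
    (u : ℕ → Fin m → R) (d : ℕ) (σ : Fin d → Fin m) :
    φ (plu u d σ) = plu (fun i l => φ (u i l)) d σ := by
  unfold plu
  rw [RingHom.map_det]
  rfl

private theorem plu_congr {R : Type*} [CommRing R] {m : ℕ} {u v : ℕ → Fin m → R} {d : ℕ}
    (h : ∀ i, i < d → u i = v i) (σ : Fin d → Fin m) : plu u d σ = plu v d σ := by
  unfold plu
  refine congrArg Matrix.det ?_
  ext i j
  show u i (σ j) = v i (σ j)
  rw [h i i.isLt]

theorem linePt_map {R S : Type*} [CommRing R] [CommRing S] (φ : R →+* S) {m : ℕ} {Δ : Finset ℕ}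
    (u : ℕ → Fin m → R) (κ : ℕ) (s t : R) (p : PIdx m Δ) :
    φ (linePt Δ u κ s t p) = linePt Δ (fun i l => φ (u i l)) κ (φ s) (φ t) p := by
  unfold linePt
  split_ifs with h
  · rw [plu_map]
    refine plu_congr (fun i _ => ?_) _
    funext l
    unfold pencil
    split_ifs
    · rw [map_add, map_mul, map_mul]
    · rfl
  · rw [plu_map]

private theorem linePt_congr {R : Type*} [CommRing R] {m : ℕ} {Δ : Finset ℕ}
    (hΔ : ∀ d ∈ Δ, 0 < d ∧ d < m) {κ : ℕ} (hκ : κ ∈ Δ) {u v : ℕ → Fin m → R}
    (h : ∀ i, i < m → u i = v i) (s t : R) : linePt Δ u κ s t = linePt Δ v κ s t := by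
  funext p
  have hp : (p.1 : ℕ) < m := (hΔ _ p.1.2).2
  have hκm : κ < m := (hΔ _ hκ).2
  unfold linePt
  split_ifs with h1
  · refine plu_congr (fun i hi => ?_) _
    funext l
    unfold pencil
    split_ifs
    · rw [h (κ - 1) (by omega), h κ hκm]
    · rw [h i (by omega)]
  · exact plu_congr (fun i hi => h i (by omega)) _

private theorem map_det_of {R S : Type*} [CommRing R] [CommRing S] (ψ : R →+* S) {m : ℕ}
    (W : ℕ → Fin m → R) :
    ψ (Matrix.det (Matrix.of fun i j : Fin m => W i j)) =
      Matrix.det (Matrix.of fun i j : Fin m => ψ (W i j)) := by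
  rw [RingHom.map_det]
  rfl

theorem descend3 {k κ' J : Type*} [Field k] [IsAlgClosed k] [Field κ'] [Algebra k κ'] {m : ℕ}
    {Δ : Finset ℕ} (hΔ : ∀ d ∈ Δ, 0 < d ∧ d < m) {κ : ℕ} (hκ : κ ∈ Δ)
    (F : J → MvPolynomial (PIdx m Δ) k) (w : ℕ → Fin m → κ')
    (hw : Matrix.det (Matrix.of fun i j : Fin m => w i j) ≠ 0)
    (h : ∀ j, ∀ s t : κ', MvPolynomial.aeval (linePt Δ w κ s t) (F j) = 0) :
    ∃ w' : ℕ → Fin m → k, LinearIndependent k (fun i : Fin m => w' i) ∧
      ∀ j, ∀ s t : k, MvPolynomial.eval (linePt Δ w' κ s t) (F j) = 0 := by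
  classical
  let x : Fin m × Fin m → κ' := fun p => w p.1 p.2
  let W : ℕ → Fin m → MvPolynomial (Fin m × Fin m) k :=
    fun i l => if hi : i < m then MvPolynomial.X (⟨i, hi⟩, l) else 0
  have hWx : ∀ i, i < m → (fun l => MvPolynomial.aeval x (W i l)) = w i := by
    intro i hi
    funext l
    show MvPolynomial.aeval x (W i l) = w i l
    simp only [W, dif_pos hi, MvPolynomial.aeval_X, x]
  let δ : MvPolynomial (Fin m × Fin m) k := Matrix.det (Matrix.of fun i j : Fin m => W i j)
  have hδ : MvPolynomial.aeval x δ ≠ 0 := by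
    have h1 := map_det_of (MvPolynomial.aeval x : MvPolynomial (Fin m × Fin m) k →ₐ[k] κ').toRingHom W
    have h2 : (Matrix.of fun i j : Fin m =>
        (MvPolynomial.aeval x : MvPolynomial (Fin m × Fin m) k →ₐ[k] κ').toRingHom (W i j)) =
        Matrix.of fun i j : Fin m => w i j := by
      ext i j
      exact congrFun (hWx i i.isLt) j
    rw [h2] at h1
    intro h0
    exact hw (h1.symm.trans h0)
  obtain ⟨y, hy, hyδ⟩ := spec_point x δ hδ
  refine ⟨fun i l => MvPolynomial.eval y (W i l), ?_, fun j s t => ?_⟩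
  · have h1 := map_det_of (MvPolynomial.eval y) W
    have h2 : Matrix.det (Matrix.of fun i j : Fin m => MvPolynomial.eval y (W i j)) ≠ 0 := by
      rw [← h1]
      exact hyδ
    exact Matrix.linearIndependent_rows_of_det_ne_zero h2
  · have h1 := hy (MvPolynomial.aeval (linePt Δ W κ (MvPolynomial.C s) (MvPolynomial.C t)) (F j)) ?_
    · have h3 : MvPolynomial.eval y (MvPolynomial.aeval (linePt Δ W κ (MvPolynomial.C s) (MvPolynomial.C t)) (F j)) =
          MvPolynomial.eval (linePt Δ (fun i l => MvPolynomial.eval y (W i l)) κ s t) (F j) := by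
        rw [← MvPolynomial.coe_aeval_eq_eval, ← MvPolynomial.coe_aeval_eq_eval]
        show MvPolynomial.aeval y (MvPolynomial.aeval _ (F j)) = MvPolynomial.aeval _ (F j)
        rw [MvPolynomial.comp_aeval_apply]
        refine congrArg (fun z => MvPolynomial.aeval z (F j)) (funext fun p => ?_)
        have h4 := linePt_map (MvPolynomial.eval y) W κ (MvPolynomial.C s) (MvPolynomial.C t) p
        rw [MvPolynomial.eval_C, MvPolynomial.eval_C] at h4
        rw [MvPolynomial.coe_aeval_eq_eval]
        exact h4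
      rw [h3] at h1
      exact h1
    · rw [MvPolynomial.comp_aeval_apply]
      have h2 : (fun p => MvPolynomial.aeval x (linePt Δ W κ (MvPolynomial.C s) (MvPolynomial.C t) p)) =
          linePt Δ w κ (algebraMap k κ' s) (algebraMap k κ' t) := by
        rw [← linePt_congr hΔ hκ hWx]
        funext p
        have h4 := linePt_map (MvPolynomial.aeval x : MvPolynomial (Fin m × Fin m) k →ₐ[k] κ').toRingHom W κ
          (MvPolynomial.C s) (MvPolynomial.C t) p
        have e1 : ∀ a : k, (MvPolynomial.aeval x : MvPolynomial (Fin m × Fin m) k →ₐ[k] κ').toRingHom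
            (MvPolynomial.C a) = algebraMap k κ' a := fun a => MvPolynomial.aeval_C x a
        rw [e1, e1] at h4
        exact h4
      have h5 := h j (algebraMap k κ' s) (algebraMap k κ' t)
      rw [← h2] at h5
      exact h5

end Pool.Agent.Lib.MP_1e3e9c_ag.FL
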