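import Mathlib

/-! # Det: determinants modulo the square of an ideal

JOB Det (100 lines).
`det_unitri`: `Matrix.det_of_upperTriangular` (`Matrix.BlockTriangular _ id`).
`det_updateCol_last`: `A.updateCol i c` is again upper triangular (`i` is the last index) with the diagonal entries `1`, except `c i`.
`det_updateCol_mod`: let `A = 1 + N` (upper unitriangular, `det A = 1`), `v = Matrix.cramer A c`, so
`(A.updateCol i c).det = v i` (`Matrix.cramer_apply`) and `A *ᵥ v = A.det • c = c` (`Matrix.mulVec_cramer`).  So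
`v = c - N *ᵥ v = c - N *ᵥ c + N *ᵥ (N *ᵥ v)`, and the last term has its coordinates in `I ^ 2`.
`det_two_cols`: `Matrix.det_apply`: in every product `∏ a, M (σ a) a` the factors `a = i` and `a = j` lie in `I`. -/

set_option autoImplicit false

namespace Pool.Agent.Lib.MP_1e3e9c_ag.FL

theorem det_unitri {R : Type*} [CommRing R] {d : ℕ} (A : Matrix (Fin d) (Fin d) R)
    (h1 : ∀ i, A i i = 1) (h0 : ∀ i j, j < i → A i j = 0) : A.det = 1 := by
  have h : Matrix.BlockTriangular A id := fun i j hij => h0 i j hij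
  rw [Matrix.det_of_upperTriangular h]
  exact Finset.prod_eq_one fun i _ => h1 i

theorem det_updateCol_last {R : Type*} [CommRing R] {d : ℕ} (A : Matrix (Fin d) (Fin d) R)
    (h1 : ∀ i, A i i = 1) (h0 : ∀ i j, j < i → A i j = 0) (i : Fin d) (hi : ∀ j, j ≤ i)
    (c : Fin d → R) : (A.updateCol i c).det = c i := by
  have h : Matrix.BlockTriangular (A.updateCol i c) id := by
    intro a b hab
    have hab' : b < a := hab
    have hbi : b ≠ i := by
      rintro rfl
      exact absurd (hi a) (not_le.2 hab')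
    rw [Matrix.updateCol_ne hbi]
    exact h0 a b hab'
  rw [Matrix.det_of_upperTriangular h, Finset.prod_eq_single i]
  · rw [Matrix.updateCol_self]
  · intro b _ hb
    rw [Matrix.updateCol_ne hb]
    exact h1 b
  · intro h
    exact absurd (Finset.mem_univ i) h

theorem det_updateCol_mod {R : Type*} [CommRing R] (I : Ideal R) {d : ℕ}
    (A : Matrix (Fin d) (Fin d) R) (h1 : ∀ i, A i i = 1) (h0 : ∀ i j, j < i → A i j = 0)
    (hI : ∀ i j, i < j → A i j ∈ I) (i : Fin d) (c : Fin d → R) :
    (A.updateCol i c).det - (c i - ∑ j ∈ Finset.univ.filter (fun j => i < j), A i j * c j)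
      ∈ I ^ 2 := by
  classical
  set v := Matrix.cramer A c with hv
  have hdet : (A.updateCol i c).det = v i := (Matrix.cramer_apply A c i).symm
  have hmul : ∀ a, v a + ∑ j ∈ Finset.univ.filter (fun j => a < j), A a j * v j = c a := by
    intro a
    have e1 := congrFun (Matrix.mulVec_cramer A c) a
    rw [det_unitri A h1 h0, one_smul] at e1
    rw [← e1]
    show _ = ∑ j, A a j * v j
    rw [← Finset.sum_filter_add_sum_filter_not Finset.univ (fun j => a < j) (fun j => A a j * v j),
      add_comm]
    refine congrArg₂ (· + ·) rfl ?_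
    rw [Finset.sum_eq_single a]
    · rw [h1, one_mul]
    · intro b hb hba
      have hb' : ¬ a < b := (Finset.mem_filter.1 hb).2
      rw [h0 a b (lt_of_le_of_ne (not_lt.1 hb') hba), zero_mul]
    · intro h
      exact absurd (Finset.mem_filter.2 ⟨Finset.mem_univ a, lt_irrefl a⟩) h
  rw [hdet]
  have hI1 : ∀ a, c a - v a ∈ I := by
    intro a
    have e2 : c a - v a = ∑ j ∈ Finset.univ.filter (fun j => a < j), A a j * v j := by
      rw [← hmul a]
      ring
    rw [e2]
    exact Ideal.sum_mem _ fun j hj =>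
      Ideal.mul_mem_right _ _ (hI a j (Finset.mem_filter.1 hj).2)
  have e3 : v i - (c i - ∑ j ∈ Finset.univ.filter (fun j => i < j), A i j * c j)
      = ∑ j ∈ Finset.univ.filter (fun j => i < j), A i j * (c j - v j) := by
    have e4 := hmul i
    rw [← e4]
    simp only [mul_sub, Finset.sum_sub_distrib]
    ring
  rw [e3]
  refine Ideal.sum_mem _ fun j hj => ?_
  rw [pow_two]
  exact Ideal.mul_mem_mul (hI i j (Finset.mem_filter.1 hj).2) (hI1 j)

theorem det_two_cols {R : Type*} [CommRing R] (I : Ideal R) {d : ℕ} (M : Matrix (Fin d) (Fin d) R)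
    (i j : Fin d) (hij : i ≠ j) (hi : ∀ a, M a i ∈ I) (hj : ∀ a, M a j ∈ I) : M.det ∈ I ^ 2 := by
  classical
  rw [Matrix.det_apply]
  refine Ideal.sum_mem _ fun σ _ => ?_
  refine Submodule.smul_of_tower_mem _ _ ?_
  have hji : j ∈ Finset.univ.erase i := Finset.mem_erase.2 ⟨hij.symm, Finset.mem_univ j⟩
  rw [← Finset.mul_prod_erase Finset.univ _ (Finset.mem_univ i),
    ← Finset.mul_prod_erase (Finset.univ.erase i) _ hji, ← mul_assoc]
  refine Ideal.mul_mem_right _ _ ?_
  rw [pow_two]
  exact Ideal.mul_mem_mul (hi _) (hj _)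

end Pool.Agent.Lib.MP_1e3e9c_ag.FL
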