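import Mathlib

/-! # Fix2: fixed points over the power series ring, with quadratic terms

JOB Fix2 (90 lines; compare the complete file `RC/Fix.lean`).  `R = PowerSeries k`, `τ = PowerSeries.X`, `M = Ideal.span (Set.range MvPolynomial.X)`.
LEMMA: let `n ≥ 1`, `V, V' : T → R` with `τ ∣ V t`, `τ ∣ V' t`, `τ^n ∣ V t - V' t` for all `t`.  Then `τ^(n+1) ∣ aeval V N - aeval V' N` for
`N ∈ M ^ 2`.  Proof: `M ^ 2` is spanned by the products `X a * X b` (`Ideal.span_mul_span'`, `pow_two`; `Submodule.span_induction`), and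
for `N = G * (X a * X b)`: `G(V) V_a V_b - G(V') V'_a V'_b = G(V) (V_a (V_b - V'_b) + (V_a - V'_a) V'_b) + (G(V) - G(V')) V'_a V'_b`, each
term is divisible by `τ^(n+1)` (`τ^n ∣ G(V) - G(V')`: polynomials preserve congruences).
Put `V_0 = 0`, `V_{n+1} t = τ * aeval V_n (G t) + aeval V_n (N t)`.  By induction `τ ∣ V_n t` (`N ∈ M` has no constant term) and
`τ^{n+1} ∣ V_{n+1} t - V_n t`.  The limit `V t = PowerSeries.mk fun n => coeff n (V_{n+1} t)` satisfies `τ^(n+1) ∣ V t - V_{n+1} t`, so
`V t - τ * aeval V (G t) - aeval V (N t)` is divisible by all powers of `τ`, hence zero. -/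

set_option autoImplicit false

namespace Pool.Agent.Lib.MP_1e3e9c_ag.FL

/-- Polynomials preserve congruences. -/
private theorem fix2_cong {k T : Type*} [Field k] (x y : T → PowerSeries k) (n : ℕ)
    (h : ∀ t, (PowerSeries.X : PowerSeries k) ^ n ∣ x t - y t) (G : MvPolynomial T k) :
    (PowerSeries.X : PowerSeries k) ^ n ∣ MvPolynomial.aeval x G - MvPolynomial.aeval y G := by
  induction G using MvPolynomial.induction_on with
  | C a => simp
  | add p q hp hq =>
    have h1 := dvd_add hp hq
    have h2 : MvPolynomial.aeval x (p + q) - MvPolynomial.aeval y (p + q)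
        = (MvPolynomial.aeval x p - MvPolynomial.aeval y p)
          + (MvPolynomial.aeval x q - MvPolynomial.aeval y q) := by
      rw [map_add, map_add]; ring
    rw [h2]; exact h1
  | mul_X p t hp =>
    have h2 : MvPolynomial.aeval x (p * MvPolynomial.X t) - MvPolynomial.aeval y (p * MvPolynomial.X t)
        = (MvPolynomial.aeval x p - MvPolynomial.aeval y p) * x t
          + MvPolynomial.aeval y p * (x t - y t) := by
      rw [map_mul, map_mul, MvPolynomial.aeval_X, MvPolynomial.aeval_X]; ring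
    rw [h2]
    exact dvd_add (Dvd.dvd.mul_right hp _) (Dvd.dvd.mul_left (h t) _)

private theorem fix2_mem {k T : Type*} [Field k] (V : T → PowerSeries k)
    (hV : ∀ t, PowerSeries.X ∣ V t) {m : MvPolynomial T k}
    (hm : m ∈ Ideal.span (Set.range (MvPolynomial.X : T → MvPolynomial T k))) :
    (PowerSeries.X : PowerSeries k) ∣ MvPolynomial.aeval V m := by
  have h : Ideal.span (Set.range (MvPolynomial.X : T → MvPolynomial T k)) ≤
      Ideal.comap (MvPolynomial.aeval V : MvPolynomial T k →ₐ[k] PowerSeries k)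
        (Ideal.span {(PowerSeries.X : PowerSeries k)}) := by
    rw [Ideal.span_le]
    rintro _ ⟨t, rfl⟩
    rw [SetLike.mem_coe, Ideal.mem_comap, Ideal.mem_span_singleton, MvPolynomial.aeval_X]
    exact hV t
  have h2 := h hm
  rwa [Ideal.mem_comap, Ideal.mem_span_singleton] at h2

private theorem fix2_quad {k T : Type*} [Field k] (V V' : T → PowerSeries k) (n : ℕ)
    (hV : ∀ t, PowerSeries.X ∣ V t) (hV' : ∀ t, PowerSeries.X ∣ V' t)
    (h : ∀ t, (PowerSeries.X : PowerSeries k) ^ n ∣ V t - V' t) {N : MvPolynomial T k}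
    (hN : N ∈ (Ideal.span (Set.range (MvPolynomial.X : T → MvPolynomial T k))) ^ 2) :
    (PowerSeries.X : PowerSeries k) ^ (n + 1) ∣
      MvPolynomial.aeval V N - MvPolynomial.aeval V' N := by
  rw [pow_two, ← smul_eq_mul] at hN
  refine Submodule.smul_induction_on hN ?_ ?_
  · intro a ha b hb
    have h1 : MvPolynomial.aeval V (a • b) - MvPolynomial.aeval V' (a • b)
        = MvPolynomial.aeval V a * (MvPolynomial.aeval V b - MvPolynomial.aeval V' b)
          + (MvPolynomial.aeval V a - MvPolynomial.aeval V' a) * MvPolynomial.aeval V' b := by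
      rw [smul_eq_mul, map_mul, map_mul]; ring
    rw [h1]
    refine dvd_add ?_ ?_
    · rw [pow_succ']
      exact mul_dvd_mul (fix2_mem V hV ha) (fix2_cong V V' n h b)
    · rw [pow_succ]
      exact mul_dvd_mul (fix2_cong V V' n h a) (fix2_mem V' hV' hb)
  · intro a b ha hb
    have h1 : MvPolynomial.aeval V (a + b) - MvPolynomial.aeval V' (a + b)
        = (MvPolynomial.aeval V a - MvPolynomial.aeval V' a)
          + (MvPolynomial.aeval V b - MvPolynomial.aeval V' b) := by
      rw [map_add, map_add]; ring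
    rw [h1]
    exact dvd_add ha hb

/-- The successive approximations. -/
private noncomputable def fix2Seq {k T : Type*} [Field k] (G N : T → MvPolynomial T k) :
    ℕ → T → PowerSeries k
  | 0 => fun _ => 0
  | (n + 1) => fun t => PowerSeries.X * MvPolynomial.aeval (fix2Seq G N n) (G t)
      + MvPolynomial.aeval (fix2Seq G N n) (N t)

private theorem fix2Seq_succ {k T : Type*} [Field k] (G N : T → MvPolynomial T k) (n : ℕ) (t : T) :
    fix2Seq G N (n + 1) t = PowerSeries.X * MvPolynomial.aeval (fix2Seq G N n) (G t)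
      + MvPolynomial.aeval (fix2Seq G N n) (N t) := rfl

private theorem fix2Seq_dvd {k T : Type*} [Field k] (G N : T → MvPolynomial T k)
    (hN : ∀ t, N t ∈ (Ideal.span (Set.range (MvPolynomial.X : T → MvPolynomial T k))) ^ 2)
    (n : ℕ) : ∀ t, (PowerSeries.X : PowerSeries k) ∣ fix2Seq G N n t := by
  induction n with
  | zero => intro t; exact dvd_zero _
  | succ n ih =>
    intro t
    rw [fix2Seq_succ]
    refine dvd_add (dvd_mul_right _ _) (fix2_mem _ ih ?_)
    exact Ideal.pow_le_self two_ne_zero (hN t)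

private theorem fix2Seq_step {k T : Type*} [Field k] (G N : T → MvPolynomial T k)
    (hN : ∀ t, N t ∈ (Ideal.span (Set.range (MvPolynomial.X : T → MvPolynomial T k))) ^ 2)
    (n : ℕ) : ∀ t, (PowerSeries.X : PowerSeries k) ^ (n + 1) ∣
      fix2Seq G N (n + 1) t - fix2Seq G N n t := by
  induction n with
  | zero =>
    intro t
    have h1 : fix2Seq G N 0 t = 0 := rfl
    rw [h1, sub_zero, zero_add, pow_one]
    exact fix2Seq_dvd G N hN 1 t
  | succ n ih =>
    intro t
    rw [fix2Seq_succ G N (n + 1), fix2Seq_succ G N n]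
    have h1 : PowerSeries.X * MvPolynomial.aeval (fix2Seq G N (n + 1)) (G t)
          + MvPolynomial.aeval (fix2Seq G N (n + 1)) (N t)
          - (PowerSeries.X * MvPolynomial.aeval (fix2Seq G N n) (G t)
          + MvPolynomial.aeval (fix2Seq G N n) (N t))
        = PowerSeries.X * (MvPolynomial.aeval (fix2Seq G N (n + 1)) (G t)
          - MvPolynomial.aeval (fix2Seq G N n) (G t))
          + (MvPolynomial.aeval (fix2Seq G N (n + 1)) (N t)
          - MvPolynomial.aeval (fix2Seq G N n) (N t)) := by ring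
    rw [h1]
    refine dvd_add ?_ ?_
    · rw [pow_succ']
      exact mul_dvd_mul_left _ (fix2_cong _ _ (n + 1) ih (G t))
    · exact fix2_quad _ _ (n + 1) (fix2Seq_dvd G N hN (n + 1)) (fix2Seq_dvd G N hN n) ih (hN t)

private theorem fix2Seq_le {k T : Type*} [Field k] (G N : T → MvPolynomial T k)
    (hN : ∀ t, N t ∈ (Ideal.span (Set.range (MvPolynomial.X : T → MvPolynomial T k))) ^ 2)
    (n m : ℕ) (hm : n ≤ m) (t : T) :
    (PowerSeries.X : PowerSeries k) ^ (n + 1) ∣ fix2Seq G N m t - fix2Seq G N n t := by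
  induction m, hm using Nat.le_induction with
  | base => simp
  | succ m hm ih =>
    have h1 := dvd_add (dvd_trans (pow_dvd_pow _ (Nat.succ_le_succ hm)) (fix2Seq_step G N hN m t)) ih
    rw [sub_add_sub_cancel] at h1
    exact h1

theorem fix2 {k T : Type*} [Field k] (G N : T → MvPolynomial T k)
    (hN : ∀ t, N t ∈ (Ideal.span (Set.range (MvPolynomial.X : T → MvPolynomial T k))) ^ 2) :
    ∃ V : T → PowerSeries k, (∀ t, PowerSeries.X ∣ V t) ∧
      ∀ t, V t = PowerSeries.X * MvPolynomial.aeval V (G t) + MvPolynomial.aeval V (N t) := by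
  let V : T → PowerSeries k := fun t =>
    PowerSeries.mk fun n => PowerSeries.coeff n (fix2Seq G N n t)
  have hV : ∀ n t, (PowerSeries.X : PowerSeries k) ^ (n + 1) ∣ V t - fix2Seq G N n t := by
    intro n t
    rw [PowerSeries.X_pow_dvd_iff]
    intro m hm
    have h1 := fix2Seq_le G N hN m n (Nat.le_of_lt_succ hm) t
    rw [PowerSeries.X_pow_dvd_iff] at h1
    have h2 := h1 m (Nat.lt_succ_self m)
    rw [map_sub] at h2
    rw [map_sub, PowerSeries.coeff_mk]
    rw [sub_eq_zero] at h2 ⊢
    exact h2.symm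
  have hX : ∀ t, (PowerSeries.X : PowerSeries k) ∣ V t := by
    intro t
    have h1 := hV 0 t
    have h2 : fix2Seq G N 0 t = 0 := rfl
    rwa [h2, sub_zero, zero_add, pow_one] at h1
  refine ⟨V, hX, fun t => ?_⟩
  have key : ∀ n, (PowerSeries.X : PowerSeries k) ^ (n + 1) ∣
      V t - (PowerSeries.X * MvPolynomial.aeval V (G t) + MvPolynomial.aeval V (N t)) := by
    intro n
    have h1 := hV (n + 1) t
    have h2 := fix2_cong _ _ (n + 1) (fun t => hV n t) (G t)
    have h3 : (PowerSeries.X : PowerSeries k) ^ (n + 2) ∣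
        PowerSeries.X * (MvPolynomial.aeval V (G t) - MvPolynomial.aeval (fix2Seq G N n) (G t)) := by
      rw [pow_succ']; exact mul_dvd_mul_left _ h2
    have h4 : (PowerSeries.X : PowerSeries k) ^ (n + 2) ∣
        MvPolynomial.aeval V (N t) - MvPolynomial.aeval (fix2Seq G N n) (N t) :=
      fix2_quad _ _ (n + 1) hX (fix2Seq_dvd G N hN n) (fun t => hV n t) (hN t)
    have h5 := dvd_sub (dvd_sub h1 h3) h4
    have h6 : V t - fix2Seq G N (n + 1) t -
        PowerSeries.X * (MvPolynomial.aeval V (G t) - MvPolynomial.aeval (fix2Seq G N n) (G t)) -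
        (MvPolynomial.aeval V (N t) - MvPolynomial.aeval (fix2Seq G N n) (N t))
        = V t - (PowerSeries.X * MvPolynomial.aeval V (G t) + MvPolynomial.aeval V (N t)) := by
      rw [fix2Seq_succ]; ring
    rw [h6] at h5
    exact dvd_trans (pow_dvd_pow _ (Nat.le_succ (n + 1))) h5
  rw [← sub_eq_zero]
  ext n
  have h := key n
  rw [PowerSeries.X_pow_dvd_iff] at h
  rw [h n (Nat.lt_succ_self n)]
  simp

end Pool.Agent.Lib.MP_1e3e9c_ag.FL
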