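import Pool.Agent.Lib.MP_1e3e9c_ag.FL.Fix2

/-! # Gen3: deformation over the power series ring, nonlinear form

JOB Gen3 (130 lines; compare the complete files `RC/Gen.lean`, `TV/Gen.lean`).  `S = Σ m, Fin (b m + 1)`, `M_S` the ideal of the variables of
`MvPolynomial S k`.  `T = Σ j : Fin c, Fin (d j + 1)`, `δ t : Fin r → k[X]` the solution given by `hs` for the right side
`fun j => if j = t.1 then X ^ t.2 else 0`.  `ψ : MvPolynomial S k →ₐ[k] MvPolynomial T k`,
`ψ (X ⟨m, l⟩) = ∑ t, C ((δ t m).coeff l) * X t`; `ψ` maps `M_S ^ 2` into `M_T ^ 2` (`Ideal.map_pow`, `Ideal.map_span`).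
For `t = (j, l) : T` let `N t = ψ ((aeval Φ (F0 j)).coeff l) - X t`.  It lies in `M_T ^ 2`: by `h1`
`(aeval Φ (F0 j)).coeff l ≡ (∑ m, (s m j).elim 0 (X^p * Lp b m)).coeff l` mod `M_S ^ 2`, and applying `ψ` coefficientwise the polynomial
`Lp b m` becomes `∑ t, C (X t) * (δ t m)` (degree of `δ t m` at most `b m`), so the sum becomes `∑ t, X t * (if j = t.1 then X ^ t.2 else 0)`, whose
coefficient at `l` is the variable `(j, l)`.  Let `G t = ψ ((aeval Φ (F j)).coeff l)`.  `fix2` applied to `- G`, `- N` gives `V : T → PowerSeries k`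
with `V t = - X * G_t(V) - N_t(V)`, i.e. `aeval V (ψ ((aeval Φ (F0 j)).coeff l)) + X * aeval V (ψ ((aeval Φ (F j)).coeff l)) = 0` for `l ≤ d j`.
`x = fun s => aeval V (ψ (MvPolynomial.X s))`, so `aeval x = (aeval V) ∘ ψ`; `X ∣ x s` as `ψ (X s)` is a linear form.  For `l > d j` both
coefficients vanish by `h0`, `hF`. -/

set_option autoImplicit false

namespace Pool.Agent.Lib.MP_1e3e9c_ag.FL

open Polynomial

/-- the universal polynomial of degree `b m` -/
noncomputable def Lp {k : Type*} [Field k] {r : ℕ} (b : Fin r → ℕ) (m : Fin r) :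
    (MvPolynomial (Σ m : Fin r, Fin (b m + 1)) k)[X] :=
  ∑ l : Fin (b m + 1), C (MvPolynomial.X ⟨m, l⟩) * X ^ (l : ℕ)

private theorem gen3_elim {k R T : Type*} [Field k] [CommRing R] [Fintype T] (φ : k →+* R)
    (o : Option ℕ) (V : T → R) (δ : T → k[X]) :
    o.elim 0 (fun p => X ^ p * ∑ t, C (V t) * (δ t).map φ) =
      ∑ t, C (V t) * (o.elim 0 (fun p => X ^ p * δ t)).map φ := by
  cases o with
  | none => simp
  | some p =>
    simp only [Option.elim_some]
    rw [Finset.mul_sum]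
    refine Finset.sum_congr rfl fun t _ => ?_
    rw [Polynomial.map_mul, Polynomial.map_pow, Polynomial.map_X]
    ring

private theorem gen3_coeff {R : Type*} [CommRing R] {c : ℕ} (d : Fin c → ℕ)
    (V : (Σ j : Fin c, Fin (d j + 1)) → R) (j : Fin c) (l : ℕ) :
    (∑ t, C (V t) * (if j = t.1 then X ^ (t.2 : ℕ) else 0)).coeff l =
      if h : l < d j + 1 then V ⟨j, ⟨l, h⟩⟩ else 0 := by
  classical
  rw [Polynomial.finsetSum_coeff]
  have h1 : ∀ t : (Σ j : Fin c, Fin (d j + 1)),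
      (C (V t) * (if j = t.1 then (X : R[X]) ^ (t.2 : ℕ) else 0)).coeff l =
      if j = t.1 ∧ l = (t.2 : ℕ) then V t else 0 := by
    intro t
    rw [Polynomial.coeff_C_mul]
    by_cases h2 : j = t.1
    · rw [if_pos h2, Polynomial.coeff_X_pow]
      by_cases h3 : l = (t.2 : ℕ)
      · rw [if_pos h3, if_pos ⟨h2, h3⟩, mul_one]
      · rw [if_neg h3, if_neg (fun h => h3 h.2), mul_zero]
    · rw [if_neg h2, if_neg (fun h => h2 h.1), Polynomial.coeff_zero, mul_zero]
  rw [Finset.sum_congr rfl fun t _ => h1 t]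
  split_ifs with h
  · rw [Finset.sum_eq_single (⟨j, ⟨l, h⟩⟩ : Σ j : Fin c, Fin (d j + 1))]
    · rw [if_pos ⟨rfl, rfl⟩]
    · rintro ⟨j', l'⟩ _ hne
      refine if_neg fun h2 => hne ?_
      obtain ⟨h3, h4⟩ := h2
      dsimp only at h3 h4
      subst h3
      congr 1
      exact Fin.ext h4.symm
    · intro h2
      exact absurd (Finset.mem_univ _) h2
  · refine Finset.sum_eq_zero fun t _ => if_neg fun h2 => h ?_
    rw [h2.2, h2.1]
    exact t.2.2

private theorem gen3_poly {k R : Type*} [Field k] [CommRing R] (φ : k →+* R) (n : ℕ) (p : k[X])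
    (hp : p.natDegree ≤ n) :
    (∑ l : Fin (n + 1), C (φ (p.coeff l)) * X ^ (l : ℕ)) = p.map φ := by
  rw [Fin.sum_univ_eq_sum_range (fun l => C (φ (p.coeff l)) * X ^ l) (n + 1)]
  have h1 := Polynomial.as_sum_range_C_mul_X_pow' (p := p) (n := n + 1) (by omega)
  conv_rhs => rw [h1]
  rw [Polynomial.map_sum]
  refine Finset.sum_congr rfl fun l _ => ?_
  rw [Polynomial.map_mul, Polynomial.map_pow, Polynomial.map_X, Polynomial.map_C]

private theorem gen3_Lp {k T : Type*} [Field k] [Fintype T] {r : ℕ} (b : Fin r → ℕ)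
    (δ : T → Fin r → k[X]) (hδ : ∀ t m, (δ t m).natDegree ≤ b m)
    (ψ : MvPolynomial (Σ m : Fin r, Fin (b m + 1)) k →+* MvPolynomial T k)
    (hψ : ∀ s, ψ (MvPolynomial.X s) =
      ∑ t, MvPolynomial.C ((δ t s.1).coeff s.2) * MvPolynomial.X t) (m : Fin r) :
    (Lp (k := k) b m).map ψ = ∑ t, C (MvPolynomial.X t) *
      (δ t m).map (MvPolynomial.C : k →+* MvPolynomial T k) := by
  unfold Lp
  rw [Polynomial.map_sum]
  have h1 : ∀ l : Fin (b m + 1), ((C (MvPolynomial.X ⟨m, l⟩) * X ^ (l : ℕ) :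
      (MvPolynomial (Σ m : Fin r, Fin (b m + 1)) k)[X]).map ψ) =
      ∑ t, C (MvPolynomial.X t) * (C (MvPolynomial.C ((δ t m).coeff l)) * X ^ (l : ℕ)) := by
    intro l
    rw [Polynomial.map_mul, Polynomial.map_pow, Polynomial.map_X, Polynomial.map_C, hψ, map_sum,
      Finset.sum_mul]
    refine Finset.sum_congr rfl fun t _ => ?_
    rw [C_mul]
    ring
  rw [Finset.sum_congr rfl fun l _ => h1 l, Finset.sum_comm]
  refine Finset.sum_congr rfl fun t _ => ?_
  rw [← Finset.mul_sum, gen3_poly _ _ _ (hδ t m)]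

theorem generic3 {k ι : Type*} [Field k] (r c : ℕ) (b : Fin r → ℕ) (d : Fin c → ℕ)
    (s : Fin r → Fin c → Option ℕ)
    (hs : ∀ g : Fin c → k[X], (∀ j, (g j).natDegree ≤ d j) →
      ∃ δ : Fin r → k[X], (∀ m, (δ m).natDegree ≤ b m) ∧
        ∀ j, ∑ m, (s m j).elim 0 (fun p => X ^ p * δ m) = g j)
    (F F0 : Fin c → MvPolynomial ι k)
    (Φ : ι → (MvPolynomial (Σ m : Fin r, Fin (b m + 1)) k)[X])
    (h1 : ∀ j l, (MvPolynomial.aeval Φ (F0 j) -
        ∑ m, (s m j).elim 0 (fun p => X ^ p * Lp (k := k) b m)).coeff l ∈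
      (Ideal.span (Set.range (MvPolynomial.X :
        (Σ m : Fin r, Fin (b m + 1)) → MvPolynomial (Σ m : Fin r, Fin (b m + 1)) k))) ^ 2)
    (h0 : ∀ j l, d j < l → (MvPolynomial.aeval Φ (F0 j)).coeff l = 0)
    (hF : ∀ j l, d j < l → (MvPolynomial.aeval Φ (F j)).coeff l = 0) :
    ∃ x : (Σ m : Fin r, Fin (b m + 1)) → PowerSeries k, (∀ t, PowerSeries.X ∣ x t) ∧
      ∀ j, (MvPolynomial.aeval Φ (F0 j)).map
          ((MvPolynomial.aeval x : _ →ₐ[k] PowerSeries k) : _ →+* PowerSeries k) +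
        C PowerSeries.X * (MvPolynomial.aeval Φ (F j)).map
          ((MvPolynomial.aeval x : _ →ₐ[k] PowerSeries k) : _ →+* PowerSeries k) = 0 := by
  classical
  -- the solutions of the linear problem
  have hδ : ∀ t : (Σ j : Fin c, Fin (d j + 1)), ∃ δ : Fin r → k[X],
      (∀ m, (δ m).natDegree ≤ b m) ∧
      ∀ j, ∑ m, (s m j).elim 0 (fun p => X ^ p * δ m) =
        if j = t.1 then X ^ (t.2 : ℕ) else 0 := by
    intro t
    refine hs (fun j => if j = t.1 then X ^ (t.2 : ℕ) else 0) fun j => ?_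
    split_ifs with h
    · rw [natDegree_X_pow, h]
      have := t.2.2
      omega
    · rw [natDegree_zero]
      exact Nat.zero_le _
  choose δ hδ1 hδ2 using hδ
  let ψ : MvPolynomial (Σ m : Fin r, Fin (b m + 1)) k →ₐ[k]
      MvPolynomial (Σ j : Fin c, Fin (d j + 1)) k :=
    MvPolynomial.aeval fun s => ∑ t, MvPolynomial.C ((δ t s.1).coeff s.2) * MvPolynomial.X t
  have hψ : ∀ s, ψ (MvPolynomial.X s) =
      ∑ t, MvPolynomial.C ((δ t s.1).coeff s.2) * MvPolynomial.X t := fun s =>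
    MvPolynomial.aeval_X _ s
  -- `ψ` preserves the squares of the ideals
  have hsq : ∀ p ∈ (Ideal.span (Set.range (MvPolynomial.X :
        (Σ m : Fin r, Fin (b m + 1)) → MvPolynomial (Σ m : Fin r, Fin (b m + 1)) k))) ^ 2,
      ψ p ∈ (Ideal.span (Set.range (MvPolynomial.X :
        (Σ j : Fin c, Fin (d j + 1)) → MvPolynomial (Σ j : Fin c, Fin (d j + 1)) k))) ^ 2 := by
    intro p hp
    have h2 : ψ p ∈ Ideal.map ψ ((Ideal.span (Set.range (MvPolynomial.X :
        (Σ m : Fin r, Fin (b m + 1)) → MvPolynomial (Σ m : Fin r, Fin (b m + 1)) k))) ^ 2) :=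
      Ideal.mem_map_of_mem ψ hp
    rw [Ideal.map_pow] at h2
    refine Ideal.pow_right_mono ?_ 2 h2
    rw [Ideal.map_span, Ideal.span_le]
    rintro _ ⟨_, ⟨s, rfl⟩, rfl⟩
    rw [hψ]
    refine Ideal.sum_mem _ fun t _ => Ideal.mul_mem_left _ _ (Ideal.subset_span ⟨t, rfl⟩)
  -- the linear terms
  have hE : ∀ (j : Fin c) (l : ℕ), ψ ((∑ m, (s m j).elim 0
      (fun p => X ^ p * Lp (k := k) b m)).coeff l) =
      if h : l < d j + 1 then MvPolynomial.X ⟨j, ⟨l, h⟩⟩ else 0 := by
    intro j l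
    have h2 : ψ ((∑ m, (s m j).elim 0 (fun p => X ^ p * Lp (k := k) b m)).coeff l) =
        ((∑ m, (s m j).elim 0 (fun p => X ^ p * Lp (k := k) b m)).map
          (ψ : MvPolynomial (Σ m : Fin r, Fin (b m + 1)) k →+*
            MvPolynomial (Σ j : Fin c, Fin (d j + 1)) k)).coeff l := by
      rw [Polynomial.coeff_map]
      rfl
    rw [h2, ← gen3_coeff d (fun t => (MvPolynomial.X t :
      MvPolynomial (Σ j : Fin c, Fin (d j + 1)) k)) j l]
    have h3 : (∑ m, (s m j).elim 0 (fun p => X ^ p * Lp (k := k) b m)).map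
          (ψ : MvPolynomial (Σ m : Fin r, Fin (b m + 1)) k →+*
            MvPolynomial (Σ j : Fin c, Fin (d j + 1)) k) =
        ∑ m, (s m j).elim 0 (fun p => X ^ p * ∑ t, C (MvPolynomial.X t) *
          (δ t m).map (MvPolynomial.C : k →+* MvPolynomial (Σ j : Fin c, Fin (d j + 1)) k)) := by
      rw [Polynomial.map_sum]
      refine Finset.sum_congr rfl fun m _ => ?_
      cases s m j with
      | none => simp
      | some p =>
        simp only [Option.elim_some]
        rw [Polynomial.map_mul, Polynomial.map_pow, Polynomial.map_X,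
          gen3_Lp b δ hδ1 (ψ : MvPolynomial (Σ m : Fin r, Fin (b m + 1)) k →+*
            MvPolynomial (Σ j : Fin c, Fin (d j + 1)) k) hψ m]
    rw [h3, Finset.sum_congr rfl fun m _ => gen3_elim (MvPolynomial.C : k →+*
      MvPolynomial (Σ j : Fin c, Fin (d j + 1)) k) (s m j) (fun t => MvPolynomial.X t)
      (fun t => δ t m), Finset.sum_comm]
    congr 1
    refine Finset.sum_congr rfl fun t _ => ?_
    rw [← Finset.mul_sum, ← Polynomial.map_sum, hδ2 t j]
    split_ifs
    · rw [Polynomial.map_pow, Polynomial.map_X]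
    · rw [Polynomial.map_zero]
  obtain ⟨V, hV0, hV⟩ := fix2 (k := k) (T := Σ j : Fin c, Fin (d j + 1))
    (fun t => -ψ ((MvPolynomial.aeval Φ (F t.1)).coeff (t.2 : ℕ)))
    (fun t => -(ψ ((MvPolynomial.aeval Φ (F0 t.1)).coeff (t.2 : ℕ)) - MvPolynomial.X t)) (by
      intro t
      refine (Ideal.neg_mem_iff _).2 ?_
      have h2 := hsq _ (h1 t.1 (t.2 : ℕ))
      rw [Polynomial.coeff_sub, map_sub, hE, dif_pos t.2.2] at h2
      exact h2)
  refine ⟨fun s => MvPolynomial.aeval V (ψ (MvPolynomial.X s)), fun s => ?_, fun j => ?_⟩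
  · change PowerSeries.X ∣ MvPolynomial.aeval V (ψ (MvPolynomial.X s))
    rw [hψ, map_sum]
    refine Finset.dvd_sum fun t _ => ?_
    rw [map_mul, MvPolynomial.aeval_X]
    exact Dvd.dvd.mul_left (hV0 t) _
  · have h2 : (MvPolynomial.aeval (fun s => MvPolynomial.aeval V (ψ (MvPolynomial.X s))) :
        MvPolynomial (Σ m : Fin r, Fin (b m + 1)) k →ₐ[k] PowerSeries k) =
        (MvPolynomial.aeval V).comp ψ := by
      refine MvPolynomial.algHom_ext fun s => ?_
      rw [MvPolynomial.aeval_X]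
      rfl
    rw [h2]
    ext1 l
    rw [Polynomial.coeff_add, Polynomial.coeff_C_mul, Polynomial.coeff_map, Polynomial.coeff_map,
      Polynomial.coeff_zero]
    by_cases h : l < d j + 1
    · have h3 := hV ⟨j, ⟨l, h⟩⟩
      simp only [map_neg, map_sub, MvPolynomial.aeval_X] at h3
      change MvPolynomial.aeval V (ψ ((MvPolynomial.aeval Φ (F0 j)).coeff l)) + PowerSeries.X *
        MvPolynomial.aeval V (ψ ((MvPolynomial.aeval Φ (F j)).coeff l)) = 0
      linear_combination h3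
    · rw [h0 j l (by omega), hF j l (by omega), map_zero, mul_zero, add_zero]

end Pool.Agent.Lib.MP_1e3e9c_ag.FL
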