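import Pool.Agent.Lib.MP_1e3e9c_ag.FL.Defs

/-! # Inv: the line does not change under a triangular change of the rows

JOB Inv (110 lines).
`plu_tri`: `(u i (σ j))_{i,j<d} = B * (w i (σ j))_{i,j<d}` with `B i j = b i j` for `j ≤ i` and `0` otherwise, `det B = ∏ b i i`
(`Matrix.det_mul`, `Matrix.det_of_lowerTriangular`).
`inv_pt`: given `s' t'` let `t = t' / b κ κ`, `s = (s' - t * b κ (κ-1)) / b (κ-1) (κ-1)`.  The rows `< κ` of `pencil u κ s t` are lower
triangular combinations of the rows of `pencil w κ s' t'`: for `i < κ-1` as before; for `i = κ-1`: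
`s * u (κ-1) + t * u κ = ∑_{j < κ-1} (s b (κ-1) j + t b κ j) w j + (s b (κ-1) (κ-1) + t b κ (κ-1)) w (κ-1) + t b κ κ w κ
 = ∑_{j < κ-1} (..) w j + (s' w (κ-1) + t' w κ)`, with the diagonal coefficient `1`.  So by `plu_tri` (with modified coefficients)
`plu (pencil u κ s t) κ σ = (∏_{i < κ-1} b i i) * plu (pencil w κ s' t') κ σ`, and `plu u d σ = (∏_{i<d} b i i) * plu w d σ` for `d ≠ κ`.
`scale_pt`: `pencil u κ (a * s) (a * t)` is `pencil u κ s t` with the row `κ-1` multiplied by `a` (`Matrix.det_updateRow_smul` or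
`plu_tri` with a diagonal matrix). -/

set_option autoImplicit false

namespace Pool.Agent.Lib.MP_1e3e9c_ag.FL

theorem plu_tri {K : Type*} [CommRing K] {m : ℕ} (u w : ℕ → Fin m → K) (b : ℕ → ℕ → K) (d : ℕ)
    (h : ∀ i, i < d → ∀ l, u i l = ∑ j ∈ Finset.range (i + 1), b i j * w j l)
    (σ : Fin d → Fin m) : plu u d σ = (∏ i ∈ Finset.range d, b i i) * plu w d σ := by
  have hmul : (Matrix.of fun i j : Fin d => u i (σ j)) =
      (Matrix.of fun i j : Fin d => if (j : ℕ) ≤ i then b i j else 0) *
        (Matrix.of fun i j : Fin d => w i (σ j)) := by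
    ext i l
    rw [Matrix.mul_apply]
    simp only [Matrix.of_apply]
    rw [h i i.2 (σ l), Fin.sum_univ_eq_sum_range
      (fun j => (if j ≤ (i : ℕ) then b i j else 0) * w j (σ l)) d]
    refine Finset.sum_subset_zero_on_sdiff ?_ ?_ ?_
    · intro j hj
      rw [Finset.mem_range] at hj ⊢
      have := i.2
      omega
    · intro j hj
      rw [Finset.mem_sdiff, Finset.mem_range, Finset.mem_range] at hj
      rw [if_neg (by omega), zero_mul]
    · intro j hj
      rw [Finset.mem_range] at hj
      rw [if_pos (by omega)]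
  have hdet : (Matrix.of fun i j : Fin d => if (j : ℕ) ≤ i then b i j else 0).det =
      ∏ i ∈ Finset.range d, b i i := by
    rw [Matrix.det_of_lowerTriangular]
    · rw [← Fin.prod_univ_eq_prod_range (fun i => b i i) d]
      refine Finset.prod_congr rfl fun i _ => ?_
      rw [Matrix.of_apply, if_pos le_rfl]
    · intro i j hij
      have hij' : i < j := hij
      rw [Matrix.of_apply, if_neg]
      rw [Fin.lt_def] at hij'
      omega
  unfold plu
  rw [hmul, Matrix.det_mul, hdet]

theorem inv_pt {K : Type*} [Field K] {m : ℕ} {Δ : Finset ℕ} (hΔ : ∀ d ∈ Δ, 0 < d ∧ d < m) {κ : ℕ}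
    (hκ : κ ∈ Δ) (u w : ℕ → Fin m → K) (b : ℕ → ℕ → K) (hb : ∀ i, i < m → b i i ≠ 0)
    (h : ∀ i, i < m → ∀ l, u i l = ∑ j ∈ Finset.range (i + 1), b i j * w j l) (s' t' : K) :
    ∃ (s t : K) (lam : Δ → K), (∀ d, lam d ≠ 0) ∧
      ∀ p : PIdx m Δ, linePt Δ u κ s t p = lam p.1 * linePt Δ w κ s' t' p := by
  obtain ⟨hκ0, hκm⟩ := hΔ κ hκ
  obtain ⟨k, rfl⟩ : ∃ k, κ = k + 1 := ⟨κ - 1, by omega⟩
  have hbk : b k k ≠ 0 := hb k (by omega)
  have hbk1 : b (k + 1) (k + 1) ≠ 0 := hb (k + 1) hκm
  obtain ⟨t, ht⟩ : ∃ t : K, t * b (k + 1) (k + 1) = t' := ⟨t' / b (k + 1) (k + 1), by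
    rw [div_mul_cancel₀ _ hbk1]⟩
  obtain ⟨s, hs⟩ : ∃ s : K, s * b k k + t * b (k + 1) k = s' :=
    ⟨(s' - t * b (k + 1) k) / b k k, by rw [div_mul_cancel₀ _ hbk, sub_add_cancel]⟩
  let b' : ℕ → ℕ → K := fun i j =>
    if i = k then (if j = k then 1 else s * b k j + t * b (k + 1) j) else b i j
  have hb' : ∀ i, i < m → b' i i ≠ 0 := by
    intro i hi
    by_cases hik : i = k
    · have : b' i i = 1 := by
        simp only [b', if_pos hik]
      rw [this]
      exact one_ne_zero
    · have : b' i i = b i i := by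
        simp only [b', if_neg hik]
      rw [this]
      exact hb i hi
  have hpen : ∀ i, i < k + 1 → ∀ l, pencil u (k + 1) s t i l =
      ∑ j ∈ Finset.range (i + 1), b' i j * pencil w (k + 1) s' t' j l := by
    intro i hi l
    unfold pencil
    simp only [Nat.add_sub_cancel]
    by_cases hik : i = k
    · subst hik
      rw [if_pos rfl, Finset.sum_range_succ, if_pos rfl]
      have e1 : ∑ j ∈ Finset.range i, b' i j *
          (if j = i then s' * w i l + t' * w (i + 1) l else w j l) =
          ∑ j ∈ Finset.range i, (s * b i j + t * b (i + 1) j) * w j l := by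
        refine Finset.sum_congr rfl fun j hj => ?_
        have hj' : j ≠ i := (Finset.mem_range.1 hj).ne
        have : b' i j = s * b i j + t * b (i + 1) j := by
          simp only [b', if_pos rfl, if_neg hj']
        rw [this, if_neg hj']
      have e2 : b' i i = 1 := by
        simp only [b', if_pos rfl]
        rfl
      rw [e1, e2, h i (by omega) l, h (i + 1) hκm l, Finset.sum_range_succ, Finset.sum_range_succ,
        Finset.sum_range_succ]
      have e3 : ∑ j ∈ Finset.range i, (s * b i j + t * b (i + 1) j) * w j l =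
          s * ∑ j ∈ Finset.range i, b i j * w j l +
            t * ∑ j ∈ Finset.range i, b (i + 1) j * w j l := by
        rw [Finset.mul_sum, Finset.mul_sum, ← Finset.sum_add_distrib]
        exact Finset.sum_congr rfl fun j _ => by ring
      rw [e3, ← hs, ← ht]
      ring
    · rw [if_neg hik, h i (by omega) l]
      refine Finset.sum_congr rfl fun j hj => ?_
      have hj' : j ≠ k := by
        rw [Finset.mem_range] at hj
        omega
      have : b' i j = b i j := by
        simp only [b', if_neg hik]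
      rw [this, if_neg hj']
  refine ⟨s, t, fun d => ∏ i ∈ Finset.range (d : ℕ), (if (d : ℕ) = k + 1 then b' i i else b i i),
    ?_, ?_⟩
  · intro d
    refine Finset.prod_ne_zero_iff.2 fun i hi => ?_
    have him : i < m := (Finset.mem_range.1 hi).trans (hΔ d d.2).2
    split_ifs
    · exact hb' i him
    · exact hb i him
  · intro p
    unfold linePt
    by_cases hp : (p.1 : ℕ) = k + 1
    · rw [if_pos hp, if_pos hp]
      simp only [if_pos hp]
      exact plu_tri _ _ b' p.1 (fun i hi l => hpen i (hp ▸ hi) l) p.2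
    · rw [if_neg hp, if_neg hp]
      simp only [if_neg hp]
      exact plu_tri _ _ b p.1 (fun i hi l => h i (hi.trans (hΔ p.1 p.1.2).2) l) p.2

theorem scale_pt {K : Type*} [CommRing K] {m : ℕ} {Δ : Finset ℕ} (hΔ : ∀ d ∈ Δ, 0 < d ∧ d < m)
    {κ : ℕ} (hκ : κ ∈ Δ) (u : ℕ → Fin m → K) (a s t : K) (p : PIdx m Δ) :
    linePt Δ u κ (a * s) (a * t) p = (if (p.1 : ℕ) = κ then a else 1) * linePt Δ u κ s t p := by
  unfold linePt
  by_cases hp : (p.1 : ℕ) = κ
  · rw [if_pos hp, if_pos hp, if_pos hp]
    have hκ0 := (hΔ κ hκ).1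
    rw [plu_tri (pencil u κ (a * s) (a * t)) (pencil u κ s t)
      (fun i j => if i = j then (if i = κ - 1 then a else 1) else 0) p.1 ?_ p.2]
    · congr 1
      have e1 : ∏ i ∈ Finset.range (p.1 : ℕ), (if i = i then (if i = κ - 1 then a else 1) else 0) =
          ∏ i ∈ Finset.range (p.1 : ℕ), (if i = κ - 1 then a else 1) :=
        Finset.prod_congr rfl fun i _ => if_pos rfl
      rw [e1, Finset.prod_ite_eq', if_pos]
      rw [Finset.mem_range]
      omega
    · intro i _ l
      rw [Finset.sum_eq_single i]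
      · rw [if_pos rfl]
        unfold pencil
        by_cases hi : i = κ - 1
        · rw [if_pos hi, if_pos hi, if_pos hi]
          ring
        · rw [if_neg hi, if_neg hi, if_neg hi, one_mul]
      · intro j _ hj
        rw [if_neg (fun h => hj h.symm), zero_mul]
      · intro hi
        exact absurd (Finset.mem_range.2 (Nat.lt_succ_self i)) hi
  · rw [if_neg hp, if_neg hp, if_neg hp, one_mul]

end Pool.Agent.Lib.MP_1e3e9c_ag.FL
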