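import Mathlib

/-! # Iwasawa: every flag over a field with a valuation ring is the flag of a matrix which is invertible over the valuation ring

JOB Iwasawa (150 lines).  `|x| = V.valuation x`.  Construct by induction on `r ≤ m`: rows `w 0, ..., w (r-1)`, coefficients `b i j` (`j ≤ i < r`,
`b i i ≠ 0`) and pairwise distinct pivots `π 0, ..., π (r-1) : Fin m` with `|w i l| ≤ 1`, `w i (π i) = 1`, `w i (π j) = 0` for `j < i`, and
`u i = ∑_{j ≤ i} b i j • w j` for `i < r`.  Step: start with `v = u r` and subtract successively the multiples of `w 0, w 1, ..., w (r-1)` that make the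
entries at `π 0, π 1, ...` zero (`v := v - v (π j) • w j`; as `w j (π j') = 0` for `j' < j` the earlier zeros remain): so
`v = u r - ∑ c_j w_j` has `v (π j) = 0` for all `j < r`.  `v ≠ 0` because `u r` is not in the span of `u 0, ..., u (r-1)`, which contains
all `w j`, `j < r` (triangular relations with nonzero diagonal).  Let `π r` be an index for which `|v (π r)|` is maximal (`≠ 0`);
`w r = (v (π r))⁻¹ • v`, `b r r = v (π r)`, `b r j = c_j`.
At the end `π : Fin m → Fin m` is injective, hence a bijection, and the matrix `(w i (π j))` is triangular with diagonal `1`, so its determinant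
is `1` and `det (w i j) = ± 1` (`Matrix.det_permute'`): valuation `1`. -/

set_option autoImplicit false

namespace Pool.Agent.Lib.MP_1e3e9c_ag.FL

/-- elimination of the entries at the first `s` pivots -/
private theorem Iwasawa_elim {L : Type*} [Field L] {m : ℕ} (r : ℕ) (x : Fin m → L)
    (w : ℕ → Fin m → L) (p : ℕ → Fin m) (h1 : ∀ i, i < r → w i (p i) = 1)
    (h0 : ∀ i, i < r → ∀ j, j < i → w i (p j) = 0) (s : ℕ) (hs : s ≤ r) :
    ∃ c : ℕ → L, ∀ j, j < s → x (p j) - ∑ i ∈ Finset.range s, c i * w i (p j) = 0 := by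
  induction s with
  | zero => exact ⟨fun _ => 0, fun j hj => absurd hj (Nat.not_lt_zero j)⟩
  | succ s ih =>
    obtain ⟨c, hc⟩ := ih (by omega)
    refine ⟨Function.update c s (x (p s) - ∑ i ∈ Finset.range s, c i * w i (p s)), ?_⟩
    intro j hj
    have e : ∀ q : Fin m, ∑ i ∈ Finset.range s, Function.update c s
        (x (p s) - ∑ i ∈ Finset.range s, c i * w i (p s)) i * w i q =
          ∑ i ∈ Finset.range s, c i * w i q := by
      intro q
      refine Finset.sum_congr rfl fun i hi => ?_
      rw [Function.update_of_ne (Finset.mem_range.1 hi).ne]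
    rw [Finset.sum_range_succ, e, Function.update_self]
    rcases Nat.lt_succ_iff_lt_or_eq.1 hj with hj' | rfl
    · rw [h0 s (by omega) j hj', mul_zero, add_zero]
      exact hc j hj'
    · rw [h1 j (by omega), mul_one]
      ring

/-- the rows are in the span of the first vectors -/
private theorem Iwasawa_span {L : Type*} [Field L] {m : ℕ} (r : ℕ) (u w : ℕ → Fin m → L)
    (b : ℕ → ℕ → L) (U : Submodule L (Fin m → L)) (hU : ∀ i, i < r → u i ∈ U)
    (hb : ∀ i, i < r → b i i ≠ 0)
    (hw : ∀ i, i < r → ∀ l, u i l = ∑ j ∈ Finset.range (i + 1), b i j * w j l) (j : ℕ)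
    (hj : j < r) : w j ∈ U := by
  induction j using Nat.strong_induction_on with
  | _ j ih =>
    have e : w j = (b j j)⁻¹ • (u j - ∑ i ∈ Finset.range j, b j i • w i) := by
      have h := hb j hj
      funext l
      have h2 := hw j hj l
      rw [Finset.sum_range_succ] at h2
      simp only [Pi.smul_apply, Pi.sub_apply, Finset.sum_apply, smul_eq_mul]
      rw [h2]
      field_simp
      ring
    rw [e]
    refine U.smul_mem _ (U.sub_mem (hU j hj) (U.sum_mem fun i hi => U.smul_mem _ ?_))
    have hi' := Finset.mem_range.1 hi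
    exact ih i hi' (by omega)

private theorem Iwasawa_step {L : Type*} [Field L] (V : ValuationSubring L) (m : ℕ) (hm : 0 < m)
    (u : ℕ → Fin m → L) (hu : LinearIndependent L (fun i : Fin m => u i)) (r : ℕ) (hr : r ≤ m) :
    ∃ (w : ℕ → Fin m → L) (b : ℕ → ℕ → L) (p : ℕ → Fin m),
      (∀ i l, i < r → w i l ∈ V) ∧ (∀ i, i < r → b i i ≠ 0) ∧
      (∀ i, i < r → ∀ l, u i l = ∑ j ∈ Finset.range (i + 1), b i j * w j l) ∧
      (∀ i, i < r → w i (p i) = 1) ∧ (∀ i, i < r → ∀ j, j < i → w i (p j) = 0) := by
  induction r with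
  | zero =>
    exact ⟨fun _ _ => 0, fun _ _ => 1, fun _ => ⟨0, hm⟩, fun i _ h => absurd h (Nat.not_lt_zero i),
      fun i h => absurd h (Nat.not_lt_zero i), fun i h => absurd h (Nat.not_lt_zero i),
      fun i h => absurd h (Nat.not_lt_zero i), fun i h => absurd h (Nat.not_lt_zero i)⟩
  | succ r ih =>
    obtain ⟨w, b, p, h1, h2, h3, h4, h5⟩ := ih (by omega)
    obtain ⟨c, hc⟩ := Iwasawa_elim r (u r) w p h4 h5 r le_rfl
    obtain ⟨v, hv⟩ : ∃ v : Fin m → L, ∀ l, v l = u r l - ∑ i ∈ Finset.range r, c i * w i l :=
      ⟨_, fun _ => rfl⟩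
    have hv0 : ∃ l, v l ≠ 0 := by
      by_contra hne
      push Not at hne
      have hU := hu.notMem_span_image (s := {i : Fin m | i.1 < r}) (x := ⟨r, by omega⟩)
        (fun h : r < r => lt_irrefl r h)
      apply hU
      have e : u r = ∑ i ∈ Finset.range r, c i • w i := by
        funext l
        have h := hne l
        rw [hv l, sub_eq_zero] at h
        rw [h, Finset.sum_apply]
        rfl
      change u r ∈ _
      rw [e]
      refine Submodule.sum_mem _ fun i hi => Submodule.smul_mem _ _ ?_
      refine Iwasawa_span r u w b _ (fun i hi => Submodule.subset_span ?_) h2 h3 i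
        (Finset.mem_range.1 hi)
      exact ⟨⟨i, by omega⟩, hi, rfl⟩
    obtain ⟨q, -, hq⟩ := Finset.exists_max_image Finset.univ (fun l => V.valuation (v l))
      ⟨⟨0, hm⟩, Finset.mem_univ _⟩
    have hvq : v q ≠ 0 := by
      obtain ⟨l, hl⟩ := hv0
      intro h0
      have h := hq l (Finset.mem_univ _)
      rw [h0, map_zero, le_zero_iff, Valuation.zero_iff] at h
      exact hl h
    have hnr : ∀ {i : ℕ}, i < r → i ≠ r := fun h => h.ne
    refine ⟨Function.update w r (fun l => (v q)⁻¹ * v l),
      fun i j => if i = r then (if j = r then v q else c j) else b i j,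
      Function.update p r q, ?_, ?_, ?_, ?_, ?_⟩
    · intro i l hi
      rcases Nat.lt_succ_iff_lt_or_eq.1 hi with hi' | rfl
      · rw [Function.update_of_ne (hnr hi')]
        exact h1 i l hi'
      · rw [Function.update_self, ← V.valuation_le_one_iff, map_mul, map_inv₀]
        have h := hq l (Finset.mem_univ _)
        have h6 : V.valuation (v q) ≠ 0 := (Valuation.ne_zero_iff _).2 hvq
        calc (V.valuation (v q))⁻¹ * V.valuation (v l)
            ≤ (V.valuation (v q))⁻¹ * V.valuation (v q) := mul_le_mul_right h _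
          _ = 1 := inv_mul_cancel₀ h6
    · intro i hi
      rcases Nat.lt_succ_iff_lt_or_eq.1 hi with hi' | rfl
      · simp only [if_neg (hnr hi')]
        exact h2 i hi'
      · simp only [if_true]
        exact hvq
    · intro i hi l
      rcases Nat.lt_succ_iff_lt_or_eq.1 hi with hi' | rfl
      · simp only [if_neg (hnr hi')]
        rw [h3 i hi' l]
        refine Finset.sum_congr rfl fun j hj => ?_
        have hj' := Finset.mem_range.1 hj
        rw [Function.update_of_ne (by omega)]
      · rw [Finset.sum_range_succ]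
        simp only [if_true, Function.update_self]
        have e : ∑ j ∈ Finset.range i, (if j = i then v q else c j) *
            Function.update w i (fun l => (v q)⁻¹ * v l) j l =
              ∑ j ∈ Finset.range i, c j * w j l := by
          refine Finset.sum_congr rfl fun j hj => ?_
          have hj' := (Finset.mem_range.1 hj).ne
          rw [if_neg hj', Function.update_of_ne hj']
        rw [e, mul_inv_cancel_left₀ hvq, hv l]
        ring
    · intro i hi
      rcases Nat.lt_succ_iff_lt_or_eq.1 hi with hi' | rfl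
      · rw [Function.update_of_ne (hnr hi'), Function.update_of_ne (hnr hi')]
        exact h4 i hi'
      · rw [Function.update_self, Function.update_self]
        exact inv_mul_cancel₀ hvq
    · intro i hi j hj
      rcases Nat.lt_succ_iff_lt_or_eq.1 hi with hi' | rfl
      · rw [Function.update_of_ne (hnr hi'), Function.update_of_ne (hnr (hj.trans hi'))]
        exact h5 i hi' j hj
      · rw [Function.update_self, Function.update_of_ne (hnr hj), hv (p j), hc j hj, mul_zero]

theorem iwasawa {L : Type*} [Field L] (V : ValuationSubring L) (m : ℕ) (u : ℕ → Fin m → L)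
    (hu : LinearIndependent L (fun i : Fin m => u i)) :
    ∃ (w : ℕ → Fin m → L) (b : ℕ → ℕ → L),
      (∀ i l, i < m → w i l ∈ V) ∧ (∀ i, i < m → b i i ≠ 0) ∧
      (∀ i, i < m → ∀ l, u i l = ∑ j ∈ Finset.range (i + 1), b i j * w j l) ∧
      V.valuation (Matrix.det (Matrix.of fun i j : Fin m => w i j)) = 1 := by
  rcases Nat.eq_zero_or_pos m with rfl | hm
  · refine ⟨fun _ _ => 0, fun _ _ => 1, fun i l hi => absurd hi (Nat.not_lt_zero i),
      fun i hi => absurd hi (Nat.not_lt_zero i), fun i hi => absurd hi (Nat.not_lt_zero i), ?_⟩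
    rw [Matrix.det_isEmpty, map_one]
  obtain ⟨w, b, p, h1, h2, h3, h4, h5⟩ := Iwasawa_step V m hm u hu m le_rfl
  refine ⟨w, b, h1, h2, h3, ?_⟩
  have hinj : Function.Injective (fun i : Fin m => p i) := by
    have key : ∀ i j : Fin m, j < i → p i ≠ p j := by
      intro i j hij h
      have h6 := h4 i i.2
      rw [h, h5 i i.2 j hij] at h6
      exact zero_ne_one h6
    intro i j h
    rcases lt_trichotomy i j with h6 | h6 | h6
    · exact absurd h.symm (key j i h6)
    · exact h6
    · exact absurd h (key i j h6)
  obtain ⟨σ, hσ⟩ : ∃ σ : Equiv.Perm (Fin m), ∀ i, σ i = p i :=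
    ⟨Equiv.ofBijective _ (Finite.injective_iff_bijective.1 hinj), fun _ => rfl⟩
  have hdet : ((Matrix.of fun i j : Fin m => w i j).submatrix id σ).det = 1 := by
    rw [Matrix.det_of_isUpperTriangular]
    · refine Finset.prod_eq_one fun i _ => ?_
      rw [Matrix.submatrix_apply, Matrix.of_apply, hσ]
      exact h4 i i.2
    · intro i j hij
      rw [Matrix.submatrix_apply, Matrix.of_apply, hσ]
      exact h5 i i.2 j hij
  rw [Matrix.det_permute'] at hdet
  have h6 := congrArg V.valuation hdet
  rw [map_mul, map_one] at h6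
  have h7 : V.valuation (((Equiv.Perm.sign σ : ℤˣ) : ℤ) : L) = 1 := by
    rcases Int.units_eq_one_or (Equiv.Perm.sign σ) with h | h
    · rw [h, Units.val_one, Int.cast_one, map_one]
    · rw [h, Units.val_neg, Units.val_one, Int.cast_neg, Int.cast_one, Valuation.map_neg, map_one]
  rwa [h7, one_mul] at h6

end Pool.Agent.Lib.MP_1e3e9c_ag.FL
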