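import Pool.Agent.Lib.MP_1e3e9c_ag.FL.Spec
import Pool.Agent.Lib.MP_1e3e9c_ag.FL.Gen3
import Pool.Agent.Lib.MP_1e3e9c_ag.FL.Desc
import Pool.Agent.Lib.MP_1e3e9c_ag.RC.Tile
import Pool.Agent.Lib.MP_1e3e9c_ag.RC.Deg

/-! # Line: the standard line deforms over the power series ring

JOB Line (170 lines; uses Spec, Gen3, Desc.linePt_map and the complete `RC.tile`, `RC.natDegree_aeval_le`).
Let `r` be the number of roots `(i, l)`, `l < m`, different from `(κ-1, κ)` (so `r + 1 = dimFl m Δ`: `(κ-1, κ)` is a root) and `y : Fin r → ℕ × ℕ` an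
enumeration (injective, with exactly these values); `b v = bA κ lo hi (y v)`.  Number of the roots with `bA = 1`: the `(i, κ)`, `lo ≤ i < κ-1`, and the
`(κ-1, l)`, `κ < l < hi` (all are roots, with `d = κ`): `(κ - 1 - lo) + (hi - κ - 1) = hi - lo - 2`.  So
`∑ v, (b v + 1) = r + (hi - lo - 2) = dimFl - 1 + (hi - lo) - 2`, and `hcount` is `∑ j, (D j K + 1) ≤ ∑ v, (b v + 1)`.
`RC.tile r c b (fun j => D j K)` (`b v ≤ 1 ≤ D j K`) gives `s` with `p + b v ≤ D j K` and the solvability.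
`P = MvPolynomial (Σ v, Fin (b v + 1)) k`, `I` the ideal of the variables; `x0 i l = X ⟨v, 0⟩` if `(i, l) = y v` and `0` if there is no such `v`;
`x1 i l = X ⟨v, 1⟩` if `(i, l) = y v` and `b v = 1`, else `0`.  `Φ = linePt Δ (rowsX m Δ κ lo hi x0 x1) κ 1 X`.  `special3` gives `F0` and the congruence, where
`C (x0 ..) + (if bA = 1 then X * C (x1 ..) else 0) = Lp b v`; this is the hypothesis `h1` of `generic3`.
Degrees (`h0`, `hF`): by `RC.natDegree_aeval_le` (`fc = Sigma.fst`, weights `1`, `α = K`; `pdeg m Δ = RC.mdeg Sigma.fst (fun _ => 1)`): `natDegree (Φ p) ≤ 1` if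
`p.1 = K` (the determinant of a matrix with one row of degree `≤ 1` and constants elsewhere) and `≤ 0` otherwise.
`generic3` gives `x`; the rows over `PowerSeries k` are `rows m Δ κ lo hi (fun i l => aeval x (x0 i l)) (fun i l => aeval x (x1 i l))`, and
`(aeval Φ G).map (aeval x) = aeval (linePt Δ (rowsX ..) κ 1 X) G` (`linePt_map` for `Polynomial.mapRingHom`). -/

set_option autoImplicit false

namespace Pool.Agent.Lib.MP_1e3e9c_ag.FL

open Polynomial

private theorem line_natDegree_plu {R : Type*} [CommRing R] {m : ℕ} (u : ℕ → Fin m → R[X])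
    (δ : ℕ → ℕ) (hu : ∀ i l, (u i l).natDegree ≤ δ i) (d : ℕ) (σ : Fin d → Fin m) :
    (plu u d σ).natDegree ≤ ∑ i : Fin d, δ i := by
  unfold plu
  rw [Matrix.det_apply]
  refine Polynomial.natDegree_sum_le_of_forall_le _ _ fun τ _ => ?_
  refine (Polynomial.natDegree_smul_le _ _).trans ((Polynomial.natDegree_prod_le _ _).trans ?_)
  calc ∑ i : Fin d, ((Matrix.of fun i j : Fin d => u i (σ j)) (τ i) i).natDegree
      ≤ ∑ i : Fin d, δ (τ i : Fin d) := Finset.sum_le_sum fun i _ => hu _ _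
    _ = ∑ i : Fin d, δ i := Equiv.sum_comp τ (fun i : Fin d => δ i)

private theorem line_natDegree {R : Type*} [CommRing R] (m : ℕ) (Δ : Finset ℕ) (κ lo hi : ℕ)
    (hκ : κ ∈ Δ) (x0 x1 : ℕ → ℕ → R) (p : PIdx m Δ) :
    (linePt Δ (rowsX m Δ κ lo hi x0 x1) κ 1 X p).natDegree ≤
      if p.1 = (⟨κ, hκ⟩ : Δ) then 1 else 0 := by
  have h0 : ∀ (i : ℕ) (l : Fin m), (rowsX m Δ κ lo hi x0 x1 i l).natDegree ≤ 0 := fun i l => by
    unfold rowsX
    rw [Polynomial.natDegree_C]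
  unfold linePt
  by_cases hp : (p.1 : ℕ) = κ
  · rw [if_pos hp, if_pos (Subtype.ext hp)]
    refine (line_natDegree_plu _ (fun i => if i = κ - 1 then 1 else 0) (fun i l => ?_) _ _).trans ?_
    · unfold pencil
      by_cases hi : i = κ - 1
      · simp only [if_pos hi]
        refine (Polynomial.natDegree_add_le _ _).trans (max_le ?_ ?_)
        · rw [one_mul]
          exact (h0 _ _).trans zero_le_one
        · refine Polynomial.natDegree_mul_le.trans ?_
          exact (add_le_add Polynomial.natDegree_X_le (h0 _ _)).trans (by omega)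
      · simp only [if_neg hi]
        exact h0 _ _
    · rw [Fin.sum_univ_eq_sum_range (fun i => if i = κ - 1 then 1 else 0), Finset.sum_ite_eq']
      split_ifs
      · exact le_rfl
      · exact zero_le_one
  · have hp' : ¬ p.1 = (⟨κ, hκ⟩ : Δ) := fun h => hp (congrArg Subtype.val h)
    rw [if_neg hp, if_neg hp']
    refine (line_natDegree_plu _ (fun _ => 0) h0 _ _).trans ?_
    rw [Finset.sum_const_zero]

private theorem line_rows_map {R S : Type*} [CommRing R] [CommRing S] (φ : R →+* S) (m : ℕ)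
    (Δ : Finset ℕ) (κ lo hi : ℕ) (x0 x1 : ℕ → ℕ → R) (i : ℕ) (l : Fin m) :
    φ (rows m Δ κ lo hi x0 x1 i l) =
      rows m Δ κ lo hi (fun i l => φ (x0 i l)) (fun i l => φ (x1 i l)) i l := by
  unfold rows
  by_cases h1 : (l : ℕ) = i
  · rw [if_pos h1, if_pos h1, map_one]
  · rw [if_neg h1, if_neg h1]
    by_cases h2 : IsRoot Δ i l ∧ ¬ (i = κ - 1 ∧ (l : ℕ) = κ)
    · rw [if_pos h2, if_pos h2]
    · rw [if_neg h2, if_neg h2]
      by_cases h3 : (l : ℕ) = κ - 1 ∧ lo ≤ i ∧ i < κ - 1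
      · rw [if_pos h3, if_pos h3, map_neg]
      · rw [if_neg h3, if_neg h3]
        by_cases h4 : i = κ ∧ κ < (l : ℕ) ∧ (l : ℕ) < hi
        · rw [if_pos h4, if_pos h4]
        · rw [if_neg h4, if_neg h4, map_zero]

private theorem line_aeval_map {k P S : Type*} [Field k] [CommRing P] [Algebra k P] [CommRing S]
    [Algebra k S] (φ : P →ₐ[k] S) (m : ℕ) (Δ : Finset ℕ) (κ lo hi : ℕ) (x0 x1 : ℕ → ℕ → P)
    (G : MvPolynomial (PIdx m Δ) k) :
    (MvPolynomial.aeval (linePt Δ (rowsX m Δ κ lo hi x0 x1) κ 1 X) G).map (φ : P →+* S) =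
      MvPolynomial.aeval (linePt Δ (rowsX m Δ κ lo hi (fun i l => φ (x0 i l))
        (fun i l => φ (x1 i l))) κ 1 X) G := by
  have h1 : (MvPolynomial.aeval (linePt Δ (rowsX m Δ κ lo hi x0 x1) κ 1 X) G).map
      (φ : P →+* S) = Polynomial.mapAlgHom φ
        (MvPolynomial.aeval (linePt Δ (rowsX m Δ κ lo hi x0 x1) κ 1 X) G) := rfl
  rw [h1, MvPolynomial.comp_aeval_apply]
  congr 2
  funext p
  have h2 := linePt_map (Polynomial.mapRingHom (φ : P →+* S)) (rowsX m Δ κ lo hi x0 x1) κ 1 X p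
  have h3 : (fun (i : ℕ) (l : Fin m) => (Polynomial.mapRingHom (φ : P →+* S))
      (rowsX m Δ κ lo hi x0 x1 i l)) = rowsX m Δ κ lo hi (fun i l => φ (x0 i l))
        (fun i l => φ (x1 i l)) := by
    funext i l
    unfold rowsX
    rw [Polynomial.coe_mapRingHom, Polynomial.map_C]
    exact congrArg C (line_rows_map (φ : P →+* S) m Δ κ lo hi x0 x1 i l)
  rw [h3, map_one, Polynomial.coe_mapRingHom, Polynomial.map_X] at h2
  exact h2

/-- enumeration of the roots different from `(κ - 1, κ)` -/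
private theorem line_enum {m : ℕ} {Δ : Finset ℕ} {κ : ℕ} (hκ : κ ∈ Δ) (hκ0 : 0 < κ) (hκm : κ < m) :
    ∃ (r : ℕ) (y : Fin r → ℕ × ℕ), r + 1 = dimFl m Δ ∧ Function.Injective y ∧
      (∀ v, IsRoot Δ (y v).1 (y v).2 ∧ (y v).2 < m ∧ y v ≠ (κ - 1, κ)) ∧
      ∀ i l, IsRoot Δ i l → l < m → (i, l) ≠ (κ - 1, κ) → ∃ v, y v = (i, l) := by
  classical
  obtain ⟨q, hq⟩ : ∃ q : Fin m × Fin m, q = (⟨κ - 1, by omega⟩, ⟨κ, hκm⟩) := ⟨_, rfl⟩
  obtain ⟨S, hS⟩ : ∃ S : Finset (Fin m × Fin m),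
      S = Finset.univ.filter fun p : Fin m × Fin m => IsRoot Δ p.1 p.2 := ⟨_, rfl⟩
  have hmS : ∀ p : Fin m × Fin m, p ∈ S ↔ IsRoot Δ p.1 p.2 := fun p => by
    rw [hS, Finset.mem_filter]
    exact ⟨fun h => h.2, fun h => ⟨Finset.mem_univ _, h⟩⟩
  have hqS : q ∈ S := by
    rw [hmS, hq]
    refine ⟨κ, hκ, ?_, le_rfl⟩
    change κ - 1 < κ
    omega
  have hcard : (S.erase q).card + 1 = dimFl m Δ := by
    rw [Finset.card_erase_add_one hqS, hS]
    rfl
  refine ⟨(S.erase q).card, fun v => ((((S.erase q).equivFin.symm v).1.1 : ℕ),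
    (((S.erase q).equivFin.symm v).1.2 : ℕ)), hcard, ?_, ?_, ?_⟩
  · intro v w h
    have h1 := congrArg Prod.fst h
    have h2 := congrArg Prod.snd h
    have h3 : ((S.erase q).equivFin.symm v).1 = ((S.erase q).equivFin.symm w).1 :=
      Prod.ext (Fin.ext h1) (Fin.ext h2)
    exact (S.erase q).equivFin.symm.injective (Subtype.ext h3)
  · intro v
    have h1 := ((S.erase q).equivFin.symm v).2
    rw [Finset.mem_erase, hmS] at h1
    refine ⟨h1.2, ((S.erase q).equivFin.symm v).1.2.2, fun h => h1.1 ?_⟩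
    refine Eq.trans ?_ hq.symm
    exact Prod.ext (Fin.ext (congrArg Prod.fst h)) (Fin.ext (congrArg Prod.snd h))
  · intro i l hr hl hne
    have him : i < m := by
      obtain ⟨d, hd, h1, h2⟩ := hr
      omega
    have hmem : ((⟨i, him⟩, ⟨l, hl⟩) : Fin m × Fin m) ∈ S.erase q := by
      rw [Finset.mem_erase, hmS]
      refine ⟨fun h => hne ?_, hr⟩
      rw [hq] at h
      exact Prod.ext (congrArg (fun p : Fin m × Fin m => (p.1 : ℕ)) h)
        (congrArg (fun p : Fin m × Fin m => (p.2 : ℕ)) h)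
    refine ⟨(S.erase q).equivFin ⟨_, hmem⟩, ?_⟩
    simp only [Equiv.symm_apply_apply]

/-- the number of the roots of type A -/
private theorem line_count {m : ℕ} {Δ : Finset ℕ} {κ lo hi : ℕ} (hκ : κ ∈ Δ) (hlo : lo < κ)
    (hhi : κ < hi) (hm : hi ≤ m) {r : ℕ} (y : Fin r → ℕ × ℕ)
    (hsur : ∀ i l, IsRoot Δ i l → l < m → (i, l) ≠ (κ - 1, κ) → ∃ v, y v = (i, l)) :
    hi - lo ≤ (∑ v, bA κ lo hi (y v)) + 2 := by
  classical
  obtain ⟨T, hT⟩ : ∃ T : Finset (ℕ × ℕ), T = (Finset.Ico lo (κ - 1)).image (fun i => (i, κ)) ∪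
      (Finset.Ioo κ hi).image (fun l => (κ - 1, l)) := ⟨_, rfl⟩
  have hcard : T.card = (κ - 1 - lo) + (hi - κ - 1) := by
    rw [hT, Finset.card_union_of_disjoint, Finset.card_image_of_injective,
      Finset.card_image_of_injective, Nat.card_Ico, Nat.card_Ioo]
    · intro a b h
      exact congrArg Prod.snd h
    · intro a b h
      exact congrArg Prod.fst h
    · rw [Finset.disjoint_left]
      intro p hp hp'
      obtain ⟨i, hi, rfl⟩ := Finset.mem_image.1 hp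
      obtain ⟨l, hl, h⟩ := Finset.mem_image.1 hp'
      have h1 := congrArg Prod.fst h
      rw [Finset.mem_Ico] at hi
      change κ - 1 = i at h1
      omega
  have hsub : T ⊆ (Finset.univ.filter fun v => bA κ lo hi (y v) = 1).image y := by
    intro p hp
    rw [hT, Finset.mem_union] at hp
    rw [Finset.mem_image]
    rcases hp with hp | hp
    · obtain ⟨i, hi, rfl⟩ := Finset.mem_image.1 hp
      rw [Finset.mem_Ico] at hi
      obtain ⟨v, hv⟩ := hsur i κ ⟨κ, hκ, by omega, le_rfl⟩ (by omega)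
        (fun h => by
          have h1 := congrArg Prod.fst h
          change i = κ - 1 at h1
          omega)
      refine ⟨v, Finset.mem_filter.2 ⟨Finset.mem_univ _, ?_⟩, hv⟩
      rw [hv]
      unfold bA
      rw [if_pos (Or.inl ⟨rfl, hi.1, hi.2⟩)]
    · obtain ⟨l, hl, rfl⟩ := Finset.mem_image.1 hp
      rw [Finset.mem_Ioo] at hl
      obtain ⟨v, hv⟩ := hsur (κ - 1) l ⟨κ, hκ, by omega, by omega⟩ (by omega)
        (fun h => by
          have h1 := congrArg Prod.snd h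
          change l = κ at h1
          omega)
      refine ⟨v, Finset.mem_filter.2 ⟨Finset.mem_univ _, ?_⟩, hv⟩
      rw [hv]
      unfold bA
      rw [if_pos (Or.inr ⟨rfl, hl.1, hl.2⟩)]
  have h1 : T.card ≤ ∑ v, bA κ lo hi (y v) := by
    refine (Finset.card_le_card hsub).trans (Finset.card_image_le.trans ?_)
    rw [Finset.card_filter]
    refine Finset.sum_le_sum fun v _ => ?_
    split_ifs with h
    · exact h.ge
    · exact Nat.zero_le _
  omega

theorem line3 {k : Type*} [Field k] {m : ℕ} {Δ : Finset ℕ} (hΔ : ∀ d ∈ Δ, 0 < d ∧ d < m)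
    {κ lo hi : ℕ} (hκ : κ ∈ Δ) (hlo : lo < κ) (hlo0 : lo = 0 ∨ lo ∈ Δ)
    (hlo' : ∀ d ∈ Δ, lo < d → κ ≤ d) (hhi : κ < hi) (hhi' : ∀ d ∈ Δ, κ < d → hi ≤ d) (hm : hi ≤ m)
    (hm0 : hi = m ∨ hi ∈ Δ) (c : ℕ) (D : Fin c → Δ → ℕ) (hD : ∀ j d, 0 < D j d)
    (F : Fin c → MvPolynomial (PIdx m Δ) k)
    (hF : ∀ j, (F j).IsWeightedHomogeneous (pdeg m Δ) (D j))
    (hcount : (∑ j, D j ⟨κ, hκ⟩) + c + 3 ≤ (hi - lo) + dimFl m Δ) :
    ∃ F0 : Fin c → MvPolynomial (PIdx m Δ) k,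
      (∀ j, (F0 j).IsWeightedHomogeneous (pdeg m Δ) (D j)) ∧
      ∃ x0 x1 : ℕ → ℕ → PowerSeries k, ∀ j,
        MvPolynomial.aeval (linePt Δ (rowsX m Δ κ lo hi x0 x1) κ 1 X) (F0 j) +
          C PowerSeries.X *
            MvPolynomial.aeval (linePt Δ (rowsX m Δ κ lo hi x0 x1) κ 1 X) (F j) = 0 := by
  classical
  obtain ⟨r, y, hr, hinj, hy, hsur⟩ := line_enum (m := m) hκ (by omega) (by omega : κ < m)
  have hcnt := line_count hκ hlo hhi hm y hsur
  obtain ⟨b, hb⟩ : ∃ b : Fin r → ℕ, ∀ v, b v = bA κ lo hi (y v) := ⟨_, fun v => rfl⟩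
  have hb1 : ∀ v, b v ≤ 1 := fun v => by
    rw [hb]
    unfold bA
    split_ifs
    · exact le_rfl
    · exact zero_le_one
  have hsum : ∑ v, bA κ lo hi (y v) = ∑ v, b v := Finset.sum_congr rfl fun v _ => (hb v).symm
  obtain ⟨s, hs1, hs2⟩ := RC.tile (k := k) r c b (fun j => D j ⟨κ, hκ⟩)
    (fun v j _ => (hb1 v).trans (hD j _)) (by
      rw [Finset.sum_add_distrib, Finset.sum_add_distrib]
      simp only [Finset.sum_const, Finset.card_univ, Fintype.card_fin, smul_eq_mul, mul_one]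
      rw [hsum] at hcnt
      omega)
  -- the parameters
  obtain ⟨xx, hxx⟩ : ∃ xx : ℕ → ℕ → ℕ → MvPolynomial (Σ v : Fin r, Fin (b v + 1)) k,
      ∀ t i l, xx t i l = if h : ∃ v, y v = (i, l) ∧ t < b v + 1 then
        MvPolynomial.X ⟨h.choose, ⟨t, h.choose_spec.2⟩⟩ else 0 := ⟨_, fun t i l => rfl⟩
  have hxv : ∀ (v : Fin r) (t : ℕ) (ht : t < b v + 1),
      xx t (y v).1 (y v).2 = MvPolynomial.X ⟨v, ⟨t, ht⟩⟩ := by
    intro v t ht
    have h : ∃ w, y w = ((y v).1, (y v).2) ∧ t < b w + 1 := ⟨v, rfl, ht⟩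
    rw [hxx, dif_pos h]
    have h1 : h.choose = v := hinj h.choose_spec.1
    have h2 : ∀ (w : Fin r) (hw : t < b w + 1), w = v →
        (MvPolynomial.X ⟨w, ⟨t, hw⟩⟩ : MvPolynomial (Σ v : Fin r, Fin (b v + 1)) k) =
          MvPolynomial.X ⟨v, ⟨t, ht⟩⟩ := by
      rintro w hw rfl
      rfl
    exact h2 _ _ h1
  obtain ⟨I, hI⟩ : ∃ I : Ideal (MvPolynomial (Σ v : Fin r, Fin (b v + 1)) k),
      I = Ideal.span (Set.range MvPolynomial.X) := ⟨_, rfl⟩
  have hxI : ∀ t i l, xx t i l ∈ I := by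
    intro t i l
    rw [hxx, hI]
    split_ifs with h
    · exact Ideal.subset_span ⟨_, rfl⟩
    · exact Ideal.zero_mem _
  obtain ⟨F0, hF0, hcong⟩ := special3 (k := k) I hΔ hκ hlo hlo0 hlo' hhi hhi' hm hm0 (xx 0) (xx 1)
    (hxI 0) (hxI 1) r c y hy D hD s (fun v j p h => by
      rw [← hb]
      exact (hs1 v j p h).2)
  have hLp : ∀ v, C (xx 0 (y v).1 (y v).2) + (if bA κ lo hi (y v) = 1 then
      X * C (xx 1 (y v).1 (y v).2) else 0) = Lp (k := k) b v := by
    intro v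
    unfold Lp
    have h1 : ∀ l : Fin (b v + 1), (C (MvPolynomial.X ⟨v, l⟩) * X ^ (l : ℕ) :
        (MvPolynomial (Σ m : Fin r, Fin (b m + 1)) k)[X]) =
        (fun t : ℕ => C (xx t (y v).1 (y v).2) * X ^ t) (l : ℕ) := by
      intro l
      change _ = C (xx l (y v).1 (y v).2) * X ^ (l : ℕ)
      rw [hxv v l l.2]
    rw [Finset.sum_congr rfl fun l _ => h1 l,
      Fin.sum_univ_eq_sum_range (fun t : ℕ => C (xx t (y v).1 (y v).2) * X ^ t) (b v + 1)]
    rcases Nat.le_one_iff_eq_zero_or_eq_one.1 (hb1 v) with h | h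
    · rw [← hb, h, if_neg zero_ne_one, zero_add, Finset.sum_range_one, pow_zero, mul_one, add_zero]
    · rw [← hb, h, if_pos rfl, Finset.sum_range_succ, Finset.sum_range_one, pow_zero, mul_one,
        pow_one, mul_comm (X : (MvPolynomial (Σ m : Fin r, Fin (b m + 1)) k)[X])]
  have hdeg : ∀ G : MvPolynomial (PIdx m Δ) k, ∀ E : Δ → ℕ,
      G.IsWeightedHomogeneous (pdeg m Δ) E →
      (MvPolynomial.aeval (linePt Δ (rowsX m Δ κ lo hi (xx 0) (xx 1)) κ 1 X) G).natDegree ≤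
        E ⟨κ, hκ⟩ := fun G E hG =>
    RC.natDegree_aeval_le (B := Δ) Sigma.fst (fun _ => 1) ⟨κ, hκ⟩ G E hG _
      (line_natDegree m Δ κ lo hi hκ (xx 0) (xx 1))
  obtain ⟨x, -, hx⟩ := generic3 r c b (fun j => D j ⟨κ, hκ⟩) s hs2 F F0
    (linePt Δ (rowsX m Δ κ lo hi (xx 0) (xx 1)) κ 1 X) (fun j l => by
      have h1 := hcong j l
      rw [← hI]
      have h2 : (∑ v, (s v j).elim 0 (fun p => X ^ p * (C (xx 0 (y v).1 (y v).2) +
          (if bA κ lo hi (y v) = 1 then X * C (xx 1 (y v).1 (y v).2) else 0)))) =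
          ∑ v, (s v j).elim 0 (fun p => X ^ p * Lp (k := k) b v) :=
        Finset.sum_congr rfl fun v _ => by rw [hLp]
      rw [h2] at h1
      exact h1)
    (fun j l hl => Polynomial.coeff_eq_zero_of_natDegree_lt ((hdeg _ _ (hF0 j)).trans_lt hl))
    (fun j l hl => Polynomial.coeff_eq_zero_of_natDegree_lt ((hdeg _ _ (hF j)).trans_lt hl))
  refine ⟨F0, hF0, fun i l => MvPolynomial.aeval x (xx 0 i l),
    fun i l => MvPolynomial.aeval x (xx 1 i l), fun j => ?_⟩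
  have h1 := hx j
  rw [line_aeval_map, line_aeval_map] at h1
  exact h1

end Pool.Agent.Lib.MP_1e3e9c_ag.FL
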