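import Pool.Agent.Lib.MP_1e3e9c_ag.FL.Iwasawa
import Pool.Agent.Lib.MP_1e3e9c_ag.FL.Inv
import Pool.Agent.Lib.MP_1e3e9c_ag.FL.Desc
import Pool.Agent.Lib.MP_1e3e9c_ag.RC.Deg

/-! # Red: reduction of a line modulo the maximal ideal of the valuation ring

JOB Red (110 lines; uses Iwasawa, Inv, Desc.linePt_map and the complete `RC.aeval_scale`).  Take `w`, `b` from `iwasawa`.  For `s' t' : L`:
`inv_pt` gives `s t lam`; with `RC.aeval_scale` (`fc = Sigma.fst`, weights `1`: `pdeg m Δ = RC.mdeg Sigma.fst (fun _ => 1)`)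
`aeval (linePt Δ u κ s t) (F j) = (∏ d, lam d ^ D j d) * aeval (linePt Δ w κ s' t') (F j)`, the same for `F0 j`; so
`aeval (linePt Δ w κ s' t') (F j) + ε * aeval (linePt Δ w κ s' t') (F0 j) = 0` for all `s' t' : L` (`∏ ≠ 0`).
The entries of `w` (rows `< m`; put the other rows equal to `0`, they do not matter: `d < m`, `κ < m`) lie in `V`: `w = algebraMap ∘ q`,
`q : ℕ → Fin m → V`.  `V` is a `k`-algebra by `hk` (as in the complete file `RC/Red.lean`).  For `s t : V`:
`aeval (linePt Δ q κ s t) (F j) + ε * aeval (linePt Δ q κ s t) (F0 j) = 0` in `V` (injectivity of `V → L`, `linePt_map`).  Apply the residue map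
`V → κ'`: `ε ↦ 0`, and every pair of elements of `κ'` lifts to `V`: `aeval (linePt Δ q̄ κ s̄ t̄) (F j) = 0`.  `det q̄ ≠ 0` because
`det w` is a unit of `V`. -/

set_option autoImplicit false

namespace Pool.Agent.Lib.MP_1e3e9c_ag.FL

theorem reduce3 {k L Jt : Type*} [Field k] [Field L] [Algebra k L] {m : ℕ} {Δ : Finset ℕ}
    (hΔ : ∀ d ∈ Δ, 0 < d ∧ d < m) {κ : ℕ} (hκ : κ ∈ Δ) (V : ValuationSubring L)
    (hk : ∀ c : k, algebraMap k L c ∈ V) (ε : L) (hε : ε ∈ V.nonunits)
    (F F0 : Jt → MvPolynomial (PIdx m Δ) k) (D : Jt → Δ → ℕ)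
    (hF : ∀ j, (F j).IsWeightedHomogeneous (pdeg m Δ) (D j))
    (hF0 : ∀ j, (F0 j).IsWeightedHomogeneous (pdeg m Δ) (D j))
    (u : ℕ → Fin m → L) (hu : LinearIndependent L (fun i : Fin m => u i))
    (h : ∀ j, ∀ s t : L, MvPolynomial.aeval (linePt Δ u κ s t) (F j) +
      ε * MvPolynomial.aeval (linePt Δ u κ s t) (F0 j) = 0) :
    ∃ (_ : Algebra k (IsLocalRing.ResidueField V)) (w : ℕ → Fin m → IsLocalRing.ResidueField V),
      Matrix.det (Matrix.of fun i j : Fin m => w i j) ≠ 0 ∧
      ∀ j, ∀ s t, MvPolynomial.aeval (linePt Δ w κ s t) (F j) = 0 := by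
  classical
  obtain ⟨w0, b, hwV, hb, huw, hdet⟩ := iwasawa V m u hu
  obtain ⟨W, hW⟩ : ∃ W : ℕ → Fin m → V, ∀ i, i < m → ∀ l, ((W i l : V) : L) = w0 i l := by
    refine ⟨fun i l => if h : i < m then ⟨w0 i l, hwV i l h⟩ else 0, fun i hi l => ?_⟩
    simp only [dif_pos hi]
  have huW : ∀ i, i < m → ∀ l, u i l =
      ∑ j ∈ Finset.range (i + 1), b i j * (fun i l => ((W i l : V) : L)) j l := by
    intro i hi l
    rw [huw i hi l]
    refine Finset.sum_congr rfl fun j hj => ?_
    have hj1 := Finset.mem_range.1 hj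
    change _ = b i j * ((W j l : V) : L)
    rw [hW j (by omega)]
  -- the equation for W over L
  have hL : ∀ j, ∀ s t : L,
      MvPolynomial.aeval (linePt Δ (fun i l => ((W i l : V) : L)) κ s t) (F j) +
      ε * MvPolynomial.aeval (linePt Δ (fun i l => ((W i l : V) : L)) κ s t) (F0 j) = 0 := by
    intro j s' t'
    obtain ⟨s, t, lam, hlam, hp⟩ := inv_pt hΔ hκ u _ b hb huW s' t'
    have h1 : ∀ G : MvPolynomial (PIdx m Δ) k, G.IsWeightedHomogeneous (pdeg m Δ) (D j) →
        MvPolynomial.aeval (linePt Δ u κ s t) G = (∏ d, lam d ^ D j d) *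
          MvPolynomial.aeval (linePt Δ (fun i l => ((W i l : V) : L)) κ s' t') G := by
      intro G hG
      have h2 := RC.aeval_scale (R := L) (fun p : PIdx m Δ => p.1) (fun _ => 1) G (D j) hG
        (linePt Δ (fun i l => ((W i l : V) : L)) κ s' t') lam
      rw [← h2]
      have h3 : linePt Δ u κ s t = fun p : PIdx m Δ =>
          lam p.1 ^ 1 * linePt Δ (fun i l => ((W i l : V) : L)) κ s' t' p := by
        funext p
        rw [pow_one]
        exact hp p
      rw [h3]
    have h4 := h j s t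
    rw [h1 _ (hF j), h1 _ (hF0 j)] at h4
    have h5 : (∏ d, lam d ^ D j d) ≠ 0 := Finset.prod_ne_zero_iff.2 fun d _ => pow_ne_zero _ (hlam d)
    have h6 : (∏ d, lam d ^ D j d) *
        (MvPolynomial.aeval (linePt Δ (fun i l => ((W i l : V) : L)) κ s' t') (F j) +
        ε * MvPolynomial.aeval (linePt Δ (fun i l => ((W i l : V) : L)) κ s' t') (F0 j)) = 0 := by
      linear_combination h4
    exact (mul_eq_zero.1 h6).resolve_left h5
  -- the algebra structures
  let ψ : k →+* V := (algebraMap k L).codRestrict V hk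
  have hψ : (algebraMap V L).comp ψ = algebraMap k L := by
    ext x
    rfl
  have hu1 : ε ∈ V := V.nonunits_subset hε
  have hu2 : IsLocalRing.residue V ⟨ε, hu1⟩ = 0 := by
    obtain ⟨h3, h4⟩ := V.mem_nonunits_iff_exists_mem_maximalIdeal.1 hε
    exact (IsLocalRing.residue_eq_zero_iff _).2 h4
  have hmapE : ∀ (s t : V) (G : MvPolynomial (PIdx m Δ) k),
      algebraMap V L (MvPolynomial.eval₂ ψ (linePt Δ W κ s t) G) =
      MvPolynomial.aeval (linePt Δ (fun i l => ((W i l : V) : L)) κ (s : L) (t : L)) G := by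
    intro s t G
    rw [MvPolynomial.eval₂_comp_left (algebraMap V L) ψ _ G, hψ, MvPolynomial.aeval_def]
    have h5 : (algebraMap V L) ∘ (linePt Δ W κ s t) =
        linePt Δ (fun i l => ((W i l : V) : L)) κ (s : L) (t : L) := by
      funext p
      exact linePt_map (algebraMap V L) W κ s t p
    rw [h5]
  have hVeq : ∀ j, ∀ s t : V, MvPolynomial.eval₂ ψ (linePt Δ W κ s t) (F j) +
      ⟨ε, hu1⟩ * MvPolynomial.eval₂ ψ (linePt Δ W κ s t) (F0 j) = 0 := by
    intro j s t
    have hinj : Function.Injective (algebraMap V L) := Subtype.val_injective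
    apply hinj
    rw [map_add, map_mul, map_zero, hmapE, hmapE]
    exact hL j s t
  let algκ : Algebra k (IsLocalRing.ResidueField V) := ((IsLocalRing.residue V).comp ψ).toAlgebra
  refine ⟨algκ, fun i l => IsLocalRing.residue V (W i l), ?_, ?_⟩
  · have h1 : Matrix.det (Matrix.of fun i j : Fin m => IsLocalRing.residue V (W i j)) =
        IsLocalRing.residue V (Matrix.det (Matrix.of fun i j : Fin m => W i j)) := by
      rw [RingHom.map_det]
      rfl
    rw [h1, IsLocalRing.residue_ne_zero_iff_isUnit, V.valuation_eq_one_iff, ← hdet]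
    have h2 : ((Matrix.det (Matrix.of fun i j : Fin m => W i j) : V) : L) =
        algebraMap V L (Matrix.det (Matrix.of fun i j : Fin m => W i j)) := rfl
    have h3 : (Matrix.of fun i j : Fin m => w0 i j) =
        (algebraMap V L).mapMatrix (Matrix.of fun i j : Fin m => W i j) := by
      ext i j
      exact (hW i i.2 j).symm
    rw [h2, h3, RingHom.map_det]
  · intro j s t
    obtain ⟨s0, rfl⟩ := IsLocalRing.residue_surjective s
    obtain ⟨t0, rfl⟩ := IsLocalRing.residue_surjective t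
    have h3 := MvPolynomial.eval₂_comp_left (IsLocalRing.residue V) ψ (linePt Δ W κ s0 t0) (F j)
    have h5 := congrArg (IsLocalRing.residue V) (hVeq j s0 t0)
    rw [map_add, map_mul, map_zero, hu2, zero_mul, add_zero, h3] at h5
    have h6 : (IsLocalRing.residue V) ∘ (linePt Δ W κ s0 t0) =
        linePt Δ (fun i l => IsLocalRing.residue V (W i l)) κ (IsLocalRing.residue V s0)
          (IsLocalRing.residue V t0) := by
      funext p
      exact linePt_map (IsLocalRing.residue V) W κ s0 t0 p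
    rw [h6] at h5
    rw [MvPolynomial.aeval_def]
    exact h5

end Pool.Agent.Lib.MP_1e3e9c_ag.FL
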