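import Pool.Agent.Lib.MP_1e3e9c_ag.FL.Line
import Pool.Agent.Lib.MP_1e3e9c_ag.FL.Red
import Pool.Agent.Lib.MP_1e3e9c_ag.FL.Desc
import Pool.Agent.Lib.MP_1e3e9c_ag.RC.Val

/-! # Lines on complete intersections in flag varieties -/

set_option autoImplicit false

namespace Pool.Agent.Lib.MP_1e3e9c_ag.FL

open Polynomial

/-- evaluation commutes with a change of the coefficient ring -/
theorem map_aeval {k R S ι : Type*} [Field k] [CommRing R] [CommRing S] [Algebra k R] [Algebra k S]
    (φ : R →ₐ[k] S) (P : ι → R) (F : MvPolynomial ι k) :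
    φ (MvPolynomial.aeval P F) = MvPolynomial.aeval (fun i => φ (P i)) F := by
  have h : φ.comp (MvPolynomial.aeval P) = MvPolynomial.aeval (fun i => φ (P i)) := by
    apply MvPolynomial.algHom_ext
    intro i
    simp
  have h2 := congrArg (fun ψ : MvPolynomial ι k →ₐ[k] S => ψ F) h
  simpa using h2

/-- homogeneity in the factor `κ`: the line may be rescaled -/
theorem aeval_scale_pt {k K : Type*} [Field k] [Field K] [Algebra k K] {m : ℕ}
    {Δ : Finset ℕ} (hΔ : ∀ d ∈ Δ, 0 < d ∧ d < m) {κ : ℕ} (hκ : κ ∈ Δ)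
    (F : MvPolynomial (PIdx m Δ) k) (D : Δ → ℕ) (hF : F.IsWeightedHomogeneous (pdeg m Δ) D)
    (u : ℕ → Fin m → K) (a s t : K) :
    MvPolynomial.aeval (linePt Δ u κ (a * s) (a * t)) F
      = a ^ D ⟨κ, hκ⟩ * MvPolynomial.aeval (linePt Δ u κ s t) F := by
  classical
  have h1 : linePt Δ u κ (a * s) (a * t)
      = fun p : PIdx m Δ => (fun d : Δ => if (d : ℕ) = κ then a else 1) p.1 ^ 1
        * linePt Δ u κ s t p := by
    funext p
    rw [pow_one]
    exact scale_pt hΔ hκ u a s t p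
  have h2 := RC.aeval_scale (R := K) (fun p : PIdx m Δ => p.1) (fun _ => 1) F D hF
    (linePt Δ u κ s t) (fun d : Δ => if (d : ℕ) = κ then a else 1)
  rw [h1]
  rw [h2]
  congr 1
  rw [Finset.prod_eq_single ⟨κ, hκ⟩]
  · simp
  · intro d _ hd
    have : ¬ ((d : ℕ) = κ) := fun h => hd (Subtype.ext h)
    rw [if_neg this, one_pow]
  · intro h
    exact absurd (Finset.mem_univ _) h

theorem exists_line {k : Type*} [Field k] [IsAlgClosed k] {m : ℕ} {Δ : Finset ℕ}
    (hΔ : ∀ d ∈ Δ, 0 < d ∧ d < m)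
    {κ lo hi : ℕ} (hκ : κ ∈ Δ) (hlo : lo < κ) (hlo0 : lo = 0 ∨ lo ∈ Δ)
    (hlo' : ∀ d ∈ Δ, lo < d → κ ≤ d) (hhi : κ < hi) (hhi' : ∀ d ∈ Δ, κ < d → hi ≤ d) (hm : hi ≤ m)
    (hm0 : hi = m ∨ hi ∈ Δ) (c : ℕ) (D : Fin c → Δ → ℕ) (hD : ∀ j d, 0 < D j d)
    (F : Fin c → MvPolynomial (PIdx m Δ) k)
    (hF : ∀ j, (F j).IsWeightedHomogeneous (pdeg m Δ) (D j))
    (hcount : (∑ j, D j ⟨κ, hκ⟩) + c + 3 ≤ (hi - lo) + dimFl m Δ) :
    ∃ w : ℕ → Fin m → k, LinearIndependent k (fun i : Fin m => w i) ∧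
      ∀ j, ∀ s t : k, MvPolynomial.eval (linePt Δ w κ s t) (F j) = 0 := by
  classical
  obtain ⟨F0, hF0, x0, x1, hg⟩ :=
    line3 hΔ hκ hlo hlo0 hlo' hhi hhi' hm hm0 c D hD F hF hcount
  let K0 := FractionRing (PowerSeries k)
  let L := AlgebraicClosure K0
  let φ : PowerSeries k →ₐ[k] L :=
    (IsScalarTower.toAlgHom k K0 L).comp (IsScalarTower.toAlgHom k (PowerSeries k) K0)
  have hφ : Function.Injective φ :=
    (FaithfulSMul.algebraMap_injective K0 L).comp (IsFractionRing.injective (PowerSeries k) K0)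
  let τ : L := φ PowerSeries.X
  have hτ : τ ≠ 0 := by
    intro h
    have h1 : φ PowerSeries.X = φ 0 := by rw [map_zero]; exact h
    exact PowerSeries.X_ne_zero (hφ h1)
  have hu : Transcendental k τ⁻¹ := by
    intro h
    have h1 : IsAlgebraic k τ := by
      have h2 := h.inv
      rwa [inv_inv] at h2
    have h3 : IsAlgebraic k (PowerSeries.X : PowerSeries k) :=
      (isAlgebraic_algHom_iff φ hφ).1 h1
    obtain ⟨p, hp0, hp⟩ := h3
    apply hp0
    have h4 : (p : PowerSeries k) = Polynomial.aeval (PowerSeries.X : PowerSeries k) p := by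
      have h5 : (Polynomial.coeToPowerSeries.algHom k : k[X] →ₐ[k] PowerSeries k)
          = Polynomial.aeval (PowerSeries.X : PowerSeries k) := by
        apply Polynomial.algHom_ext
        simp [Polynomial.coeToPowerSeries.algHom_apply]
      have h6 := congrArg (fun ψ : k[X] →ₐ[k] PowerSeries k => ψ p) h5
      simpa [Polynomial.coeToPowerSeries.algHom_apply] using h6
    rw [hp] at h4
    exact_mod_cast h4
  obtain ⟨V, hk, hV⟩ := RC.exists_val (k := k) (L := L) τ⁻¹ hu
  -- the rows over `L`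
  let U : ℕ → Fin m → PowerSeries k := rows m Δ κ lo hi x0 x1
  let u : ℕ → Fin m → L := fun i l => φ (U i l)
  have hdet : Matrix.det (Matrix.of fun i j : Fin m => u i j) = 1 := by
    have h1 := R1 (R := PowerSeries k) hΔ hκ hlo hhi hm x0 x1 m le_rfl
    have h2 : Polynomial.eval 0 (plu (rowsX m Δ κ lo hi x0 x1) m (idc le_rfl)) = 1 := by
      rw [h1, Polynomial.eval_one]
    have h3 : Polynomial.eval 0 (plu (rowsX m Δ κ lo hi x0 x1) m (idc le_rfl))
        = Matrix.det (Matrix.of fun i j : Fin m => U i j) := by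
      unfold plu
      rw [← Polynomial.coe_evalRingHom, RingHom.map_det]
      congr 1
      ext i j
      simp [rowsX, idc, U]
    have h4 : Matrix.det (Matrix.of fun i j : Fin m => u i j)
        = φ (Matrix.det (Matrix.of fun i j : Fin m => U i j)) := by
      rw [AlgHom.map_det]
      rfl
    rw [h4, ← h3, h2, map_one]
  have hind : LinearIndependent L (fun i : Fin m => u i) := by
    have h1 : IsUnit (Matrix.of fun i j : Fin m => u i j) := by
      rw [Matrix.isUnit_iff_isUnit_det, hdet]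
      exact isUnit_one
    exact Matrix.linearIndependent_rows_of_isUnit h1
  -- the equations at the points `(1 : t)`
  have hE1 : ∀ j, ∀ t : L, MvPolynomial.aeval (linePt Δ u κ 1 t) (F j) +
      τ⁻¹ * MvPolynomial.aeval (linePt Δ u κ 1 t) (F0 j) = 0 := by
    intro j t
    let ψ : (PowerSeries k)[X] →ₐ[k] L :=
      (Polynomial.aeval t : L[X] →ₐ[L] L).restrictScalars k |>.comp (Polynomial.mapAlgHom φ)
    have hψC : ∀ a, ψ (C a) = φ a := by
      intro a
      simp [ψ]
    have hψX : ψ X = t := by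
      simp [ψ]
    have h1 := congrArg ψ (hg j)
    rw [map_add, map_mul, map_zero, hψC, map_aeval, map_aeval] at h1
    have h2 : (fun p => ψ (linePt Δ (rowsX m Δ κ lo hi x0 x1) κ 1 X p)) = linePt Δ u κ 1 t := by
      funext p
      have h3 := linePt_map (ψ : (PowerSeries k)[X] →+* L) (rowsX m Δ κ lo hi x0 x1) κ 1 X p
      have h4 : (fun (i : ℕ) (l : Fin m) => (ψ : (PowerSeries k)[X] →+* L)
          (rowsX m Δ κ lo hi x0 x1 i l)) = u := by
        funext i l
        exact hψC _
      rw [h4] at h3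
      simpa [hψX] using h3
    rw [h2] at h1
    have h5 : MvPolynomial.aeval (linePt Δ u κ 1 t) (F0 j) +
        τ * MvPolynomial.aeval (linePt Δ u κ 1 t) (F j) = 0 := h1
    calc MvPolynomial.aeval (linePt Δ u κ 1 t) (F j) +
          τ⁻¹ * MvPolynomial.aeval (linePt Δ u κ 1 t) (F0 j)
        = τ⁻¹ * (MvPolynomial.aeval (linePt Δ u κ 1 t) (F0 j) +
          τ * MvPolynomial.aeval (linePt Δ u κ 1 t) (F j)) := by
          rw [mul_add, ← mul_assoc τ⁻¹ τ, inv_mul_cancel₀ hτ, one_mul, add_comm]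
      _ = 0 := by rw [h5, mul_zero]
  have hEs : ∀ j, ∀ s t : L, s ≠ 0 → MvPolynomial.aeval (linePt Δ u κ s t) (F j) +
      τ⁻¹ * MvPolynomial.aeval (linePt Δ u κ s t) (F0 j) = 0 := by
    intro j s t hs
    have h1 := aeval_scale_pt (K := L) hΔ hκ (F j) (D j) (hF j) u s 1 (s⁻¹ * t)
    have h2 := aeval_scale_pt (K := L) hΔ hκ (F0 j) (D j) (hF0 j) u s 1 (s⁻¹ * t)
    rw [mul_one, ← mul_assoc, mul_inv_cancel₀ hs, one_mul] at h1 h2
    rw [h1, h2]
    have h3 := hE1 j (s⁻¹ * t)
    calc s ^ D j ⟨κ, hκ⟩ * MvPolynomial.aeval (linePt Δ u κ 1 (s⁻¹ * t)) (F j) +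
          τ⁻¹ * (s ^ D j ⟨κ, hκ⟩ * MvPolynomial.aeval (linePt Δ u κ 1 (s⁻¹ * t)) (F0 j))
        = s ^ D j ⟨κ, hκ⟩ * (MvPolynomial.aeval (linePt Δ u κ 1 (s⁻¹ * t)) (F j) +
          τ⁻¹ * MvPolynomial.aeval (linePt Δ u κ 1 (s⁻¹ * t)) (F0 j)) := by ring
      _ = 0 := by rw [h3, mul_zero]
  have hE : ∀ j, ∀ s t : L, MvPolynomial.aeval (linePt Δ u κ s t) (F j) +
      τ⁻¹ * MvPolynomial.aeval (linePt Δ u κ s t) (F0 j) = 0 := by
    intro j s t
    -- a polynomial in `s`
    let pF : L[X] := MvPolynomial.aeval (linePt Δ (fun i l => C (u i l)) κ X (C t)) (F j) +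
      C τ⁻¹ * MvPolynomial.aeval (linePt Δ (fun i l => C (u i l)) κ X (C t)) (F0 j)
    have hev : ∀ a : L, pF.eval a = MvPolynomial.aeval (linePt Δ u κ a t) (F j) +
        τ⁻¹ * MvPolynomial.aeval (linePt Δ u κ a t) (F0 j) := by
      intro a
      let ψ : L[X] →ₐ[k] L := (Polynomial.aeval a : L[X] →ₐ[L] L).restrictScalars k
      have hψ : ∀ q : L[X], ψ q = q.eval a := by
        intro q
        simp [ψ, Polynomial.aeval_def, Polynomial.eval₂_eq_eval_map]
      have h2 : (fun p => ψ (linePt Δ (fun i l => C (u i l)) κ X (C t) p))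
          = linePt Δ u κ a t := by
        funext p
        have h3 := linePt_map (ψ : L[X] →+* L) (fun i l => C (u i l)) κ X (C t) p
        have h4 : (fun (i : ℕ) (l : Fin m) => (ψ : L[X] →+* L) (C (u i l))) = u := by
          funext i l
          have := hψ (C (u i l))
          rw [Polynomial.eval_C] at this
          exact this
        rw [h4] at h3
        have h5 : (ψ : L[X] →+* L) X = a := by
          have := hψ X
          rw [Polynomial.eval_X] at this
          exact this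
        have h6 : (ψ : L[X] →+* L) (C t) = t := by
          have := hψ (C t)
          rw [Polynomial.eval_C] at this
          exact this
        rw [h5, h6] at h3
        exact h3
      rw [← hψ pF]
      simp only [pF, map_add, map_mul]
      rw [map_aeval, map_aeval, h2, hψ, Polynomial.eval_C]
    have hp0 : pF = 0 := by
      by_contra hne
      have hfin := pF.roots.toFinset.finite_toSet
      have hsub : {a : L | a ≠ 0} ⊆ pF.roots.toFinset := by
        intro a ha
        simp only [Finset.mem_coe, Multiset.mem_toFinset, Polynomial.mem_roots hne]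
        exact (hev a).trans (hEs j a t ha)
      have hinf : ({a : L | a ≠ 0}).Infinite := by
        have h7 : ({a : L | a ≠ 0}) = ({0} : Set L)ᶜ := by
          ext a
          simp
        rw [h7]
        exact (Set.finite_singleton (0 : L)).infinite_compl
      exact hinf (hfin.subset hsub)
    rw [← hev s, hp0, Polynomial.eval_zero]
  obtain ⟨_, w, hw, hW⟩ := reduce3 hΔ hκ V hk τ⁻¹ hV F F0 D hF hF0 u hind hE
  exact descend3 hΔ hκ F w hw hW

end Pool.Agent.Lib.MP_1e3e9c_ag.FL
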