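import Pool.Agent.Lib.MP_1e3e9c_ag.FL.Defs
import Pool.Agent.Lib.MP_1e3e9c_ag.FL.Det

/-! # Rows: the Plücker coordinates of the deformed line, modulo the square of the ideal of the parameters

JOB Rows (220 lines; may be delivered in parts: R1 R2 R3 R4 R6, then R5 R7 R8).  Notation: `U = rows m Δ κ lo hi x0 x1`, all `x0 i l`,
`x1 i l` lie in the ideal `I`.  Work in `R[X]` with the ideal `J = I.map C`; `J ^ 2 = (I ^ 2).map C` and `p ∈ J ^ 2` iff all
coefficients of `p` lie in `I ^ 2` (`Ideal.map_pow`, `Ideal.mem_map_C_iff`).  `p ≡ q` means `Cong I p q`.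
FACTS on `U`: `U l l = 1`; `U i l = 0` for `l < i` (a root has `i < d ≤ l`; the two other cases also have `i < l`);
`U i l ∈ I` for `l ≠ i`; `U (κ-1) κ = 0` (excluded root; the other cases do not apply).
So for `d ≤ m` the matrix `(C (U i (idc j)))_{i,j<d}` is upper unitriangular with the off-diagonal entries in `J`; the same holds for the
rows of the pencil `pencil UX κ 1 X`, `d = κ` (the row `κ-1` is `C (U (κ-1) l) + X * C (U κ l)`, and `U κ l = 0` for `l < κ`).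
Replacing the column index `i` by `l` (`Function.update (idc _) i l`) is `Matrix.updateCol` by the column `c_{i'} = (entry of row i' at l)`.
R1, R3: `det_unitri`.  R4, R6: `det_updateCol_last` (`i = κ-1` is the last index of `Fin κ`); the entry is
`C (U (κ-1) l) + X * C (U κ l)`, for `l = κ` it is `0 + X * 1`, for `κ < l < hi` it is `C (x0 (κ-1) l) + X * C (x1 (κ-1) l)` (`(κ-1, l)` is a
root; `(κ, l)` is not a root: a `d ∈ Δ` with `κ < d ≤ l < hi` does not exist).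
R2: `det_updateCol_mod` with `c_{i'} = C (U i' l) ∈ J` for all `i' < d` (`l ≥ d > i'`), so the sum over `j` lies in `J ^ 2` and the determinant is
`≡ c_i = C (U i l) = C (x0 i l)` (`(i, l) ≠ (κ-1, κ)` as `κ - 1 < d ≤ κ` would give `d = κ`).
R5: column `κ`: `c_{i'} = C (U i' κ) ∈ J` for `i' < κ-1`, `c_{κ-1} = X`; the sum over `j > i`: the terms `j < κ-1` lie in `J ^ 2`, the term
`j = κ-1` is `C (U i (κ-1)) * X = - C (x1 i κ) * X` (`(i, κ-1)` is not a root since a `d ∈ Δ` with `i < d ≤ κ-1` would be `> lo` and `< κ`).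
So the determinant is `≡ C (x0 i κ) + X * C (x1 i κ)`.
R7: column `l`, `κ < l < hi`: all `c_{i'} ∈ J`, so it is `≡ c_i = C (x0 i l)`.
R8: the matrix is `(A.updateCol i c).updateCol (κ-1) c'` with `c` the column `l` (all entries in `J`) and `c'` the column `κ`: `c'_{i'} ∈ J` for
`i' < κ-1`, `c'_{κ-1} = X`.  Write `c' = X • e_{κ-1} + c''`, `c''` with all entries in `J`; by multilinearity
(`Matrix.det_updateCol_add`, `det_updateCol_smul`) the determinant is `X * det ((A.updateCol i c).updateCol (κ-1) e) + det (... c'')`; the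
last one lies in `J ^ 2` (`det_two_cols`); the first is `X * det (A1.updateCol i c)` with `A1 = A.updateCol (κ-1) e` upper unitriangular with
off-diagonal entries in `J`, `≡ X * c_i = X * C (x0 i l)` by `det_updateCol_mod`. -/

set_option autoImplicit false

namespace Pool.Agent.Lib.MP_1e3e9c_ag.FL

open Polynomial

/-- all the coefficients of `p - q` lie in `I ^ 2` -/
def Cong {R : Type*} [CommRing R] (I : Ideal R) (p q : R[X]) : Prop :=
  ∀ n, (p - q).coeff n ∈ I ^ 2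

/-- the rows with constant polynomials as entries -/
noncomputable def rowsX {R : Type*} [CommRing R] (m : ℕ) (Δ : Finset ℕ) (κ lo hi : ℕ)
    (x0 x1 : ℕ → ℕ → R) : ℕ → Fin m → R[X] :=
  fun i l => C (rows m Δ κ lo hi x0 x1 i l)

private theorem rows_ofUpdate {S : Type*} [CommRing S] {m d : ℕ} (u : ℕ → Fin m → S)
    (σ : Fin d → Fin m) (i : Fin d) (l : Fin m) :
    (Matrix.of fun a b : Fin d => u a (Function.update σ i l b)) =
      (Matrix.of fun a b : Fin d => u a (σ b)).updateCol i (fun a => u a l) := by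
  ext a b
  by_cases hb : b = i
  · rw [hb, Matrix.updateCol_self, Matrix.of_apply, Function.update_self]
  · rw [Matrix.updateCol_ne hb, Matrix.of_apply, Matrix.of_apply, Function.update_of_ne hb]

private theorem rows_pluUpdate {S : Type*} [CommRing S] {m d : ℕ} (u : ℕ → Fin m → S)
    (σ : Fin d → Fin m) (i : Fin d) (l : Fin m) :
    plu u d (Function.update σ i l) =
      ((Matrix.of fun a b : Fin d => u a (σ b)).updateCol i (fun a => u a l)).det := by
  rw [plu, rows_ofUpdate]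

private theorem rows_cong {R : Type*} [CommRing R] {I : Ideal R} {p q : R[X]}
    (h : p - q ∈ (I.map (C : R →+* R[X])) ^ 2) : Cong I p q := by
  rw [← Ideal.map_pow] at h
  exact Ideal.mem_map_C_iff.1 h

private theorem rows_memJ {R : Type*} [CommRing R] {I : Ideal R} {a : R} (h : a ∈ I) :
    (C a : R[X]) ∈ I.map (C : R →+* R[X]) := Ideal.mem_map_of_mem _ h

private theorem rows_mulJ {S : Type*} [CommRing S] {J : Ideal S} {a b : S} (ha : a ∈ J)
    (hb : b ∈ J) : a * b ∈ J ^ 2 := by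
  rw [pow_two]
  exact Ideal.mul_mem_mul ha hb

private theorem rows_idc {m d : ℕ} (hd : d ≤ m) (j : Fin d) : ((idc hd j : Fin m) : ℕ) = j := rfl

private theorem rows_modJ {S : Type*} [CommRing S] (J : Ideal S) {d : ℕ}
    (A : Matrix (Fin d) (Fin d) S) (h1 : ∀ i, A i i = 1) (h0 : ∀ i j, j < i → A i j = 0)
    (hI : ∀ i j, i < j → A i j ∈ J) (i : Fin d) (c : Fin d → S) (hc : ∀ a, c a ∈ J) :
    (A.updateCol i c).det - c i ∈ J ^ 2 := by
  have h2 := det_updateCol_mod J A h1 h0 hI i c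
  have h3 : ∑ j ∈ Finset.univ.filter (fun j => i < j), A i j * c j ∈ J ^ 2 := by
    apply Ideal.sum_mem
    intro j hj
    exact rows_mulJ (hI i j (Finset.mem_filter.1 hj).2) (hc j)
  have h4 : (A.updateCol i c).det - c i =
      ((A.updateCol i c).det - (c i - ∑ j ∈ Finset.univ.filter (fun j => i < j), A i j * c j)) -
        ∑ j ∈ Finset.univ.filter (fun j => i < j), A i j * c j := by ring
  rw [h4]
  exact Ideal.sub_mem _ h2 h3

section

variable {R : Type*} [CommRing R] (I : Ideal R) {m : ℕ} {Δ : Finset ℕ}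
  (hΔ : ∀ d ∈ Δ, 0 < d ∧ d < m) {κ lo hi : ℕ} (hκ : κ ∈ Δ) (hlo : lo < κ)
  (hlo' : ∀ d ∈ Δ, lo < d → κ ≤ d) (hhi : κ < hi) (hhi' : ∀ d ∈ Δ, κ < d → hi ≤ d) (hm : hi ≤ m)
  (x0 x1 : ℕ → ℕ → R) (hx0 : ∀ i l, x0 i l ∈ I) (hx1 : ∀ i l, x1 i l ∈ I)

include hκ hlo hhi hm hΔ

omit hΔ hκ hlo hhi hm in
private theorem rows_self (l : Fin m) : rows m Δ κ lo hi x0 x1 l l = 1 := by
  unfold rows
  rw [if_pos rfl]

omit hΔ hκ hlo hhi hm in
private theorem rows_self' (i : ℕ) (l : Fin m) (h : (l : ℕ) = i) :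
    rows m Δ κ lo hi x0 x1 i l = 1 := by
  unfold rows
  rw [if_pos h]

omit hΔ hκ hlo hhi hm in
private theorem rows_lt (i : ℕ) (l : Fin m) (h : (l : ℕ) < i) :
    rows m Δ κ lo hi x0 x1 i l = 0 := by
  unfold rows
  rw [if_neg (by omega), if_neg, if_neg (by omega), if_neg (by omega)]
  rintro ⟨⟨d, _, h1, h2⟩, _⟩
  omega

omit hΔ hκ hlo hhi hm in
private theorem rows_mem (hx0 : ∀ i l, x0 i l ∈ I) (hx1 : ∀ i l, x1 i l ∈ I) (i : ℕ) (l : Fin m)
    (h : (l : ℕ) ≠ i) : rows m Δ κ lo hi x0 x1 i l ∈ I := by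
  unfold rows
  rw [if_neg h]
  split_ifs
  · exact hx0 _ _
  · exact I.neg_mem (hx1 _ _)
  · exact hx1 _ _
  · exact I.zero_mem

omit hhi hm hlo in
private theorem rows_excl (l : Fin m) (hl : (l : ℕ) = κ) :
    rows m Δ κ lo hi x0 x1 (κ - 1) l = 0 := by
  have h0 := (hΔ κ hκ).1
  unfold rows
  rw [if_neg (by omega), if_neg (by tauto), if_neg (by omega), if_neg (by omega)]

omit hΔ hκ hlo hhi hm in
private theorem rows_root (i : ℕ) (l : Fin m) (d : ℕ) (hd : d ∈ Δ) (h1 : i < d) (h2 : d ≤ (l : ℕ))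
    (h3 : ¬ (i = κ - 1 ∧ (l : ℕ) = κ)) : rows m Δ κ lo hi x0 x1 i l = x0 i l := by
  unfold rows
  rw [if_neg (by omega), if_pos ⟨⟨d, hd, h1, h2⟩, h3⟩]

omit hΔ hκ hlo hm in
include hhi' in
private theorem rows_kap (l : Fin m) (h1 : κ < (l : ℕ)) (h2 : (l : ℕ) < hi) :
    rows m Δ κ lo hi x0 x1 κ l = x1 (κ - 1) l := by
  unfold rows
  rw [if_neg (by omega), if_neg, if_neg (by omega), if_pos ⟨rfl, h1, h2⟩]
  rintro ⟨⟨d, hd, h3, h4⟩, _⟩
  have h5 := hhi' d hd h3
  omega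

omit hΔ hκ hlo hhi hm in
include hlo' in
private theorem rows_low (i : ℕ) (l : Fin m) (h0 : 0 < κ) (h1 : lo ≤ i) (h2 : i < κ - 1)
    (h3 : (l : ℕ) = κ - 1) : rows m Δ κ lo hi x0 x1 i l = - x1 i κ := by
  unfold rows
  rw [if_neg (by omega), if_neg, if_pos ⟨h3, h1, h2⟩]
  rintro ⟨⟨d, hd, h4, h5⟩, _⟩
  have h6 := hlo' d hd (by omega)
  omega

omit hΔ hκ hlo hhi hm in
private theorem rows_pen_lt (i : ℕ) (l : Fin m) (h : (l : ℕ) < κ) :
    pencil (rowsX m Δ κ lo hi x0 x1) κ 1 X i l = C (rows m Δ κ lo hi x0 x1 i l) := by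
  unfold pencil rowsX
  split_ifs with h1
  · rw [rows_lt x0 x1 κ l h, C_0, mul_zero, add_zero, one_mul, h1]
  · rfl

omit hΔ hκ hlo hhi hm in
private theorem rows_pen_ne (i : ℕ) (l : Fin m) (h : i ≠ κ - 1) :
    pencil (rowsX m Δ κ lo hi x0 x1) κ 1 X i l = C (rows m Δ κ lo hi x0 x1 i l) := by
  unfold pencil rowsX
  rw [if_neg h]

omit hΔ hκ hlo hhi hm in
private theorem rows_pen_eq (i : ℕ) (l : Fin m) (h : i = κ - 1) :
    pencil (rowsX m Δ κ lo hi x0 x1) κ 1 X i l =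
      C (rows m Δ κ lo hi x0 x1 (κ - 1) l) + X * C (rows m Δ κ lo hi x0 x1 κ l) := by
  unfold pencil rowsX
  rw [if_pos h, one_mul]

omit hhi hm hlo in
private theorem rows_pen_kap (i : ℕ) (l : Fin m) (h : i = κ - 1) (hl : (l : ℕ) = κ) :
    pencil (rowsX m Δ κ lo hi x0 x1) κ 1 X i l = X := by
  rw [rows_pen_eq x0 x1 i l h, rows_excl hΔ hκ x0 x1 l hl, rows_self' x0 x1 κ l hl, C_0, C_1,
    zero_add, mul_one]

omit hΔ hκ hlo hhi hm in
private theorem rows_pen_mem (hx0 : ∀ i l, x0 i l ∈ I) (hx1 : ∀ i l, x1 i l ∈ I) (i : ℕ)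
    (l : Fin m) (hi0 : i < κ) (h : κ < (l : ℕ)) :
    pencil (rowsX m Δ κ lo hi x0 x1) κ 1 X i l ∈ I.map (C : R →+* R[X]) := by
  by_cases h1 : i = κ - 1
  · rw [rows_pen_eq x0 x1 i l h1]
    exact Ideal.add_mem _ (rows_memJ (rows_mem I x0 x1 hx0 hx1 _ _ (by omega)))
      (Ideal.mul_mem_left _ _ (rows_memJ (rows_mem I x0 x1 hx0 hx1 _ _ (by omega))))
  · rw [rows_pen_ne x0 x1 i l h1]
    exact rows_memJ (rows_mem I x0 x1 hx0 hx1 _ _ (by omega))

omit hΔ hκ hlo hhi hm in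
private theorem rows_B1 (hd : κ ≤ m) (i : Fin κ) :
    (Matrix.of fun a b : Fin κ => pencil (rowsX m Δ κ lo hi x0 x1) κ 1 X a (idc hd b)) i i = 1 := by
  rw [Matrix.of_apply, rows_pen_lt x0 x1 _ _ (by rw [rows_idc]; exact i.2),
    rows_self' x0 x1 _ _ (rows_idc hd i), C_1]

omit hΔ hκ hlo hhi hm in
private theorem rows_B0 (hd : κ ≤ m) (i j : Fin κ) (hij : j < i) :
    (Matrix.of fun a b : Fin κ => pencil (rowsX m Δ κ lo hi x0 x1) κ 1 X a (idc hd b)) i j = 0 := by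
  rw [Matrix.of_apply, rows_pen_lt x0 x1 _ _ (by rw [rows_idc]; exact j.2),
    rows_lt x0 x1 _ _ (by rw [rows_idc]; exact hij), C_0]

omit hΔ hκ hlo hhi hm in
private theorem rows_BI (hx0 : ∀ i l, x0 i l ∈ I) (hx1 : ∀ i l, x1 i l ∈ I) (hd : κ ≤ m)
    (i j : Fin κ) (hij : i < j) :
    (Matrix.of fun a b : Fin κ => pencil (rowsX m Δ κ lo hi x0 x1) κ 1 X a (idc hd b)) i j ∈
      I.map (C : R →+* R[X]) := by
  rw [Matrix.of_apply, rows_pen_lt x0 x1 _ _ (by rw [rows_idc]; exact j.2)]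
  have h1 : (i : ℕ) < (j : ℕ) := hij
  exact rows_memJ (rows_mem I x0 x1 hx0 hx1 _ _ (by rw [rows_idc]; omega))

theorem R1 (d : ℕ) (hd : d ≤ m) : plu (rowsX m Δ κ lo hi x0 x1) d (idc hd) = 1 := by
  rw [plu]
  apply det_unitri
  · intro i
    rw [Matrix.of_apply, rowsX, rows_self' x0 x1 _ _ (rows_idc hd i), C_1]
  · intro i j hij
    rw [Matrix.of_apply, rowsX, rows_lt x0 x1 _ _ (by rw [rows_idc]; exact hij), C_0]

theorem R3 (hd : κ ≤ m) : plu (pencil (rowsX m Δ κ lo hi x0 x1) κ 1 X) κ (idc hd) = 1 := by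
  rw [plu]
  exact det_unitri _ (rows_B1 x0 x1 hd) (rows_B0 x0 x1 hd)

theorem R4 (hd : κ ≤ m) (i : Fin κ) (hi' : (i : ℕ) = κ - 1) (l : Fin m) (hl : (l : ℕ) = κ) :
    plu (pencil (rowsX m Δ κ lo hi x0 x1) κ 1 X) κ (Function.update (idc hd) i l) = X := by
  rw [rows_pluUpdate, det_updateCol_last _ (rows_B1 x0 x1 hd) (rows_B0 x0 x1 hd) i
    (fun j => by
      have h1 := j.2
      rw [Fin.le_def]
      omega)]
  exact rows_pen_kap hΔ hκ x0 x1 _ _ hi' hl

include hhi' in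
theorem R6 (hd : κ ≤ m) (i : Fin κ) (hi' : (i : ℕ) = κ - 1) (l : Fin m) (hl : κ < (l : ℕ))
    (hl' : (l : ℕ) < hi) :
    plu (pencil (rowsX m Δ κ lo hi x0 x1) κ 1 X) κ (Function.update (idc hd) i l)
      = C (x0 (κ - 1) l) + X * C (x1 (κ - 1) l) := by
  have h0 := (hΔ κ hκ).1
  rw [rows_pluUpdate, det_updateCol_last _ (rows_B1 x0 x1 hd) (rows_B0 x0 x1 hd) i
    (fun j => by
      have h1 := j.2
      rw [Fin.le_def]
      omega)]
  rw [rows_pen_eq x0 x1 _ _ hi', rows_kap hhi hhi' x0 x1 l hl hl',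
    rows_root x0 x1 (κ - 1) l κ hκ (by omega) (by omega) (by omega)]

include hx0 hx1 in
theorem R2 (d : ℕ) (hdΔ : d ∈ Δ) (hdκ : d ≠ κ) (hd : d ≤ m) (i : Fin d) (l : Fin m)
    (hl : d ≤ (l : ℕ)) :
    Cong I (plu (rowsX m Δ κ lo hi x0 x1) d (Function.update (idc hd) i l)) (C (x0 i l)) := by
  rw [rows_pluUpdate]
  apply rows_cong
  have hi0 := i.2
  have h1 := rows_modJ (I.map (C : R →+* R[X]))
    (Matrix.of fun a b : Fin d => rowsX m Δ κ lo hi x0 x1 a (idc hd b))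
    (fun a => by rw [Matrix.of_apply, rowsX, rows_self' x0 x1 _ _ (rows_idc hd a), C_1])
    (fun a b hab => by
      rw [Matrix.of_apply, rowsX, rows_lt x0 x1 _ _ (by rw [rows_idc]; exact hab), C_0])
    (fun a b hab => by
      have h2 : (a : ℕ) < (b : ℕ) := hab
      rw [Matrix.of_apply, rowsX]
      exact rows_memJ (rows_mem I x0 x1 hx0 hx1 _ _ (by rw [rows_idc]; omega)))
    i (fun a => rowsX m Δ κ lo hi x0 x1 a l) (fun a => by
      have h2 := a.2
      exact rows_memJ (rows_mem I x0 x1 hx0 hx1 _ _ (by omega)))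
  have h3 : rowsX m Δ κ lo hi x0 x1 i l = C (x0 i l) := by
    rw [rowsX, rows_root x0 x1 i l d hdΔ hi0 hl (by omega)]
  rw [h3] at h1
  exact h1

include hx0 hx1 hlo' in
theorem R5 (hd : κ ≤ m) (i : Fin κ) (hi1 : lo ≤ (i : ℕ)) (hi2 : (i : ℕ) < κ - 1) (l : Fin m)
    (hl : (l : ℕ) = κ) :
    Cong I (plu (pencil (rowsX m Δ κ lo hi x0 x1) κ 1 X) κ (Function.update (idc hd) i l))
      (C (x0 i κ) + X * C (x1 i κ)) := by
  have h0 := (hΔ κ hκ).1
  rw [rows_pluUpdate]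
  apply rows_cong
  obtain ⟨J, hJ⟩ : ∃ J : Ideal R[X], J = I.map (C : R →+* R[X]) := ⟨_, rfl⟩
  obtain ⟨B, hB⟩ : ∃ B : Matrix (Fin κ) (Fin κ) R[X],
    B = Matrix.of fun a b : Fin κ => pencil (rowsX m Δ κ lo hi x0 x1) κ 1 X a (idc hd b) := ⟨_, rfl⟩
  obtain ⟨c, hc⟩ : ∃ c : Fin κ → R[X],
    c = fun a : Fin κ => pencil (rowsX m Δ κ lo hi x0 x1) κ 1 X a l := ⟨_, rfl⟩
  have hBI : ∀ a b, a < b → B a b ∈ J := by
    rw [hB, hJ]
    exact rows_BI I x0 x1 hx0 hx1 hd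
  have h1 := det_updateCol_mod J B (by rw [hB]; exact rows_B1 x0 x1 hd)
    (by rw [hB]; exact rows_B0 x0 x1 hd) hBI i c
  rw [← hB, ← hc, ← hJ]
  have hk : κ - 1 < κ := by omega
  have hcl : c ⟨κ - 1, hk⟩ = X := by
    rw [hc]
    exact rows_pen_kap hΔ hκ x0 x1 _ _ rfl hl
  have hcJ : ∀ a : Fin κ, (a : ℕ) < κ - 1 → c a ∈ J := by
    intro a ha
    rw [hc, hJ]
    change pencil (rowsX m Δ κ lo hi x0 x1) κ 1 X a l ∈ _
    rw [rows_pen_ne x0 x1 _ _ (by omega)]
    exact rows_memJ (rows_mem I x0 x1 hx0 hx1 _ _ (by omega))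
  have hBl : B i ⟨κ - 1, hk⟩ = - C (x1 i κ) := by
    rw [hB, Matrix.of_apply, rows_pen_lt x0 x1 _ _ (by rw [rows_idc]; exact hk),
      rows_low hlo' x0 x1 i _ h0 hi1 hi2 rfl, C_neg]
  have hci : c i = C (x0 i κ) := by
    rw [hc]
    change pencil (rowsX m Δ κ lo hi x0 x1) κ 1 X i l = _
    rw [rows_pen_ne x0 x1 _ _ (by omega),
      rows_root x0 x1 i l κ hκ i.2 (by omega) (by omega), hl]
  have hmem : (⟨κ - 1, hk⟩ : Fin κ) ∈ Finset.univ.filter (fun j => i < j) :=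
    Finset.mem_filter.2 ⟨Finset.mem_univ _, by rw [Fin.lt_def]; exact hi2⟩
  have h2 : ∑ j ∈ Finset.univ.filter (fun j => i < j), B i j * c j =
      - C (x1 i κ) * X +
        ∑ j ∈ (Finset.univ.filter (fun j => i < j)).erase ⟨κ - 1, hk⟩, B i j * c j := by
    rw [← Finset.add_sum_erase _ _ hmem, hBl, hcl]
  have h3 : ∑ j ∈ (Finset.univ.filter (fun j => i < j)).erase ⟨κ - 1, hk⟩, B i j * c j ∈ J ^ 2 := by
    apply Ideal.sum_mem
    intro j hj
    rw [Finset.mem_erase, Finset.mem_filter] at hj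
    have h4 : (j : ℕ) ≠ κ - 1 := fun h => hj.1 (Fin.ext h)
    have h5 := j.2
    exact rows_mulJ (hBI i j hj.2.2) (hcJ j (by omega))
  rw [h2, hci] at h1
  have h6 : (B.updateCol i c).det - (C (x0 i κ) + X * C (x1 i κ)) =
      ((B.updateCol i c).det - (C (x0 i κ) - (- C (x1 i κ) * X +
        ∑ j ∈ (Finset.univ.filter (fun j => i < j)).erase ⟨κ - 1, hk⟩, B i j * c j))) -
        ∑ j ∈ (Finset.univ.filter (fun j => i < j)).erase ⟨κ - 1, hk⟩, B i j * c j := by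
    ring
  rw [h6]
  exact Ideal.sub_mem _ h1 h3

include hx0 hx1 in
theorem R7 (hd : κ ≤ m) (i : Fin κ) (hi2 : (i : ℕ) < κ - 1) (l : Fin m)
    (hl : κ < (l : ℕ)) :
    Cong I (plu (pencil (rowsX m Δ κ lo hi x0 x1) κ 1 X) κ (Function.update (idc hd) i l))
      (C (x0 i l)) := by
  rw [rows_pluUpdate]
  apply rows_cong
  have h1 := rows_modJ (I.map (C : R →+* R[X]))
    (Matrix.of fun a b : Fin κ => pencil (rowsX m Δ κ lo hi x0 x1) κ 1 X a (idc hd b))
    (rows_B1 x0 x1 hd) (rows_B0 x0 x1 hd)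
    (rows_BI I x0 x1 hx0 hx1 hd) i (fun a : Fin κ => pencil (rowsX m Δ κ lo hi x0 x1) κ 1 X a l)
    (fun a => rows_pen_mem I x0 x1 hx0 hx1 a l a.2 hl)
  have h3 : pencil (rowsX m Δ κ lo hi x0 x1) κ 1 X i l = C (x0 i l) := by
    rw [rows_pen_ne x0 x1 _ _ (by omega), rows_root x0 x1 i l κ hκ i.2 (by omega) (by omega)]
  rw [h3] at h1
  exact h1

include hx0 hx1 in
theorem R8 (hd : κ ≤ m) (i i' : Fin κ) (hi2 : (i : ℕ) < κ - 1) (hi' : (i' : ℕ) = κ - 1)
    (l l' : Fin m) (hl : κ < (l : ℕ)) (hl' : (l' : ℕ) = κ) :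
    Cong I (plu (pencil (rowsX m Δ κ lo hi x0 x1) κ 1 X) κ
      (Function.update (Function.update (idc hd) i l) i' l')) (X * C (x0 i l)) := by
  have h0 := (hΔ κ hκ).1
  have hne : i ≠ i' := fun h => by rw [h] at hi2; omega
  rw [rows_pluUpdate, rows_ofUpdate]
  apply rows_cong
  obtain ⟨J, hJ⟩ : ∃ J : Ideal R[X], J = I.map (C : R →+* R[X]) := ⟨_, rfl⟩
  obtain ⟨B, hB⟩ : ∃ B : Matrix (Fin κ) (Fin κ) R[X],
    B = Matrix.of fun a b : Fin κ => pencil (rowsX m Δ κ lo hi x0 x1) κ 1 X a (idc hd b) := ⟨_, rfl⟩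
  obtain ⟨c, hc⟩ : ∃ c : Fin κ → R[X],
    c = fun a : Fin κ => pencil (rowsX m Δ κ lo hi x0 x1) κ 1 X a l := ⟨_, rfl⟩
  obtain ⟨c', hc'⟩ : ∃ c' : Fin κ → R[X],
    c' = fun a : Fin κ => pencil (rowsX m Δ κ lo hi x0 x1) κ 1 X a l' := ⟨_, rfl⟩
  rw [← hB, ← hc, ← hc', ← hJ]
  have hBI : ∀ a b, a < b → B a b ∈ J := by
    rw [hB, hJ]
    exact rows_BI I x0 x1 hx0 hx1 hd
  have hB1 : ∀ a, B a a = 1 := by
    rw [hB]
    exact rows_B1 x0 x1 hd
  have hB0 : ∀ a b, b < a → B a b = 0 := by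
    rw [hB]
    exact rows_B0 x0 x1 hd
  have hcJ : ∀ a, c a ∈ J := by
    rw [hc, hJ]
    exact fun a => rows_pen_mem I x0 x1 hx0 hx1 a l a.2 hl
  have hci : c i = C (x0 i l) := by
    rw [hc]
    change pencil (rowsX m Δ κ lo hi x0 x1) κ 1 X i l = _
    rw [rows_pen_ne x0 x1 _ _ (by omega), rows_root x0 x1 i l κ hκ i.2 (by omega) (by omega)]
  have hcX : c' i' = X := by
    rw [hc']
    exact rows_pen_kap hΔ hκ x0 x1 _ _ hi' hl'
  have hcJ' : ∀ a, a ≠ i' → c' a ∈ J := by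
    intro a ha
    have h4 : (a : ℕ) ≠ κ - 1 := fun h => ha (Fin.ext (by rw [h, hi']))
    have h5 := a.2
    rw [hc', hJ]
    change pencil (rowsX m Δ κ lo hi x0 x1) κ 1 X a l' ∈ _
    rw [rows_pen_ne x0 x1 _ _ h4]
    exact rows_memJ (rows_mem I x0 x1 hx0 hx1 _ _ (by omega))
  obtain ⟨c'', hc''⟩ : ∃ c'' : Fin κ → R[X], c'' = fun a => if a = i' then 0 else c' a := ⟨_, rfl⟩
  have hcJ'' : ∀ a, c'' a ∈ J := by
    intro a
    rw [hc'']
    change (if a = i' then (0 : R[X]) else c' a) ∈ J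
    split_ifs with h
    · exact J.zero_mem
    · exact hcJ' a h
  have hsplit : c' = (X : R[X]) • (Pi.single i' 1 : Fin κ → R[X]) + c'' := by
    funext a
    rw [hc'', Pi.add_apply, Pi.smul_apply, smul_eq_mul]
    by_cases h : a = i'
    · rw [h, Pi.single_eq_same, if_pos rfl, hcX, mul_one, add_zero]
    · rw [Pi.single_eq_of_ne h, if_neg h, mul_zero, zero_add]
  have hcomm : (B.updateCol i c).updateCol i' (Pi.single i' 1 : Fin κ → R[X]) =
      (B.updateCol i' (Pi.single i' 1 : Fin κ → R[X])).updateCol i c := by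
    ext1 a b
    by_cases hb : b = i
    · rw [hb, Matrix.updateCol_ne hne, Matrix.updateCol_self, Matrix.updateCol_self]
    · rw [Matrix.updateCol_ne (M := B.updateCol i' _) hb]
      by_cases hb' : b = i'
      · rw [hb', Matrix.updateCol_self, Matrix.updateCol_self]
      · rw [Matrix.updateCol_ne hb', Matrix.updateCol_ne hb, Matrix.updateCol_ne hb']
  have hdet : ((B.updateCol i c).updateCol i' c').det =
      X * ((B.updateCol i' (Pi.single i' 1 : Fin κ → R[X])).updateCol i c).det +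
        ((B.updateCol i c).updateCol i' c'').det := by
    rw [hsplit, Matrix.det_updateCol_add, Matrix.det_updateCol_smul, hcomm]
  have h7 : ((B.updateCol i' (Pi.single i' 1 : Fin κ → R[X])).updateCol i c).det - c i ∈ J ^ 2 := by
    apply rows_modJ J _ _ _ _ i c hcJ
    · intro a
      by_cases ha : a = i'
      · rw [ha, Matrix.updateCol_self, Pi.single_eq_same]
      · rw [Matrix.updateCol_ne ha, hB1]
    · intro a b hab
      by_cases hb : b = i'
      · exfalso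
        have h8 : (b : ℕ) < (a : ℕ) := hab
        rw [hb, hi'] at h8
        have h9 := a.2
        omega
      · rw [Matrix.updateCol_ne hb, hB0 a b hab]
    · intro a b hab
      by_cases hb : b = i'
      · rw [hb, Matrix.updateCol_self, Pi.single_eq_of_ne (fun h => by
          rw [h, ← hb] at hab
          exact lt_irrefl _ hab)]
        exact J.zero_mem
      · rw [Matrix.updateCol_ne hb]
        exact hBI a b hab
  have h8 : ((B.updateCol i c).updateCol i' c'').det ∈ J ^ 2 := by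
    apply det_two_cols J _ i i' hne
    · intro a
      rw [Matrix.updateCol_ne hne, Matrix.updateCol_self]
      exact hcJ a
    · intro a
      rw [Matrix.updateCol_self]
      exact hcJ'' a
  rw [hdet]
  have h9 : X * ((B.updateCol i' (Pi.single i' 1 : Fin κ → R[X])).updateCol i c).det +
        ((B.updateCol i c).updateCol i' c'').det - X * C (x0 i l) =
      X * (((B.updateCol i' (Pi.single i' 1 : Fin κ → R[X])).updateCol i c).det - c i) +
        ((B.updateCol i c).updateCol i' c'').det := by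
    rw [hci]
    ring
  rw [h9]
  exact Ideal.add_mem _ (Ideal.mul_mem_left _ _ h7) h8

end

end Pool.Agent.Lib.MP_1e3e9c_ag.FL
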