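import Pool.Agent.Lib.MP_1e3e9c_ag.FL.Rows

/-! # Spec: the special member for the flag variety

JOB Spec (220 lines; uses Rows).  Write `K = ⟨κ, hκ⟩ : Δ`, `base d = X ⟨d, idc⟩`, `sK = X ⟨K, Function.update idc (κ-1) κ⟩` (variables of
`MvPolynomial (PIdx m Δ) k`).  For `s v j = some p`, `(i, l) = y v`, the term `term v j p` is:
 CASE 1: there is `d ∈ Δ`, `d ≠ κ`, `i < d ≤ l` (choose one): `X ⟨d, update idc i l⟩ * base d ^ (D j d - 1) *
   (∏ d' ∉ {d, K}, base d' ^ D j d') * base K ^ (D j K - p) * sK ^ p`   (here `bA = 0`, `p ≤ D j K`);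
 CASE 2: no such `d`, and `p + 1 ≤ D j K`: `X ⟨K, update idc i l⟩ * base K ^ (D j K - 1 - p) * sK ^ p * ∏ d' ≠ K, base d' ^ D j d'`;
 CASE 3: no such `d`, and `p = D j K`: `X ⟨K, update (update idc i l) (κ-1) κ⟩ * sK ^ (D j K - 1) * ∏ d' ≠ K, base d' ^ D j d'`.
In the cases 2, 3 the root `(i, l)` has only `d = κ`: so `i < κ ≤ l`, `lo ≤ i` (otherwise `lo ≠ 0`, `lo ∈ Δ`, `i < lo ≤ l`: case 1) and `l < hi`
(otherwise `hi ≤ l < m`, `hi ∈ Δ`, case 1).  As `y v ≠ (κ-1, κ)`: either `l = κ`, `i < κ-1` (type A row, `bA = 1`, so case 2), or `i = κ-1`,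
`κ < l < hi` (type A column, `bA = 1`, case 2), or `i < κ-1`, `κ < l` (`bA = 0`).
Every term has the multidegree `D j` (all `D j d ≥ 1`).  `F0 j = ∑ v, (s v j).elim 0 (fun p => term v j p)`.
Values at `linePt Δ (rowsX ..) κ 1 X`: `base d ↦ 1` (R1, R3), `sK ↦ X` (R4), and the first factor is congruent to `C (x0 i l)` in case 1 (R2),
`C (x0 i κ) + X * C (x1 i κ)` for a type A row (R5), `C (x0 (κ-1) l) + X * C (x1 (κ-1) l)` for a type A column (R6), `C (x0 i l)` (R7), and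
`X * C (x0 i l)` in case 3 (R8).  `Cong I` is compatible with sums and with multiplication by a polynomial (`Cong I p q → Cong I (f * p) (f * q)`).
In all cases the term is congruent to `X ^ p * (C (x0 i l) + (if bA = 1 then X * C (x1 i l) else 0))`. -/

set_option autoImplicit false

namespace Pool.Agent.Lib.MP_1e3e9c_ag.FL

open Polynomial

/-- the degree of the parameter of a root: one at the roots of type A -/
def bA (κ lo hi : ℕ) (q : ℕ × ℕ) : ℕ :=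
  if (q.2 = κ ∧ lo ≤ q.1 ∧ q.1 < κ - 1) ∨ (q.1 = κ - 1 ∧ κ < q.2 ∧ q.2 < hi) then 1 else 0

private theorem Spec_cmul {R : Type*} [CommRing R] {I : Ideal R} {p q : R[X]} (f : R[X])
    (h : Cong I p q) : Cong I (f * p) (f * q) := by
  intro n
  rw [← mul_sub, coeff_mul]
  exact Ideal.sum_mem _ fun x _ => Ideal.mul_mem_left _ _ (h _)

private theorem Spec_crefl {R : Type*} [CommRing R] (I : Ideal R) (p : R[X]) : Cong I p p := by
  intro n
  rw [sub_self, coeff_zero]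
  exact Ideal.zero_mem _

private theorem Spec_csum {R : Type*} [CommRing R] {I : Ideal R} {ι : Type*} (s : Finset ι)
    (p q : ι → R[X]) (h : ∀ i ∈ s, Cong I (p i) (q i)) : Cong I (∑ i ∈ s, p i) (∑ i ∈ s, q i) := by
  intro n
  rw [← Finset.sum_sub_distrib, finsetSum_coeff]
  exact Ideal.sum_mem _ fun i hi => h i hi n

section

variable {k R : Type*} [Field k] [CommRing R] [Algebra k R] {m : ℕ} {Δ : Finset ℕ}

/-- values of the coordinates of the factor `κ` -/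
private theorem Spec_evK (u : ℕ → Fin m → R[X]) (κ : ℕ) (hκ : κ ∈ Δ) (σ : Fin κ → Fin m) :
    (MvPolynomial.aeval (linePt Δ u κ 1 X) : MvPolynomial (PIdx m Δ) k →ₐ[k] R[X])
      (MvPolynomial.X ⟨⟨κ, hκ⟩, σ⟩) = plu (pencil u κ 1 X) κ σ := by
  rw [MvPolynomial.aeval_X]
  unfold linePt
  exact if_pos rfl

private theorem Spec_evd (u : ℕ → Fin m → R[X]) (κ : ℕ) (d : Δ) (hd : (d : ℕ) ≠ κ)
    (σ : Fin (d : ℕ) → Fin m) :
    (MvPolynomial.aeval (linePt Δ u κ 1 X) : MvPolynomial (PIdx m Δ) k →ₐ[k] R[X])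
      (MvPolynomial.X ⟨d, σ⟩) = plu u d σ := by
  rw [MvPolynomial.aeval_X]
  unfold linePt
  exact if_neg hd

/-- a monomial of multidegree `D` with the value `X ^ q` on the line -/
private theorem Spec_fill (hΔ : ∀ d ∈ Δ, 0 < d ∧ d < m) {κ lo hi : ℕ} (hκ : κ ∈ Δ)
    (hlo : lo < κ) (hhi : κ < hi) (hm : hi ≤ m) (x0 x1 : ℕ → ℕ → R) (D : Δ → ℕ) (q : ℕ)
    (hq : q ≤ D ⟨κ, hκ⟩) :
    ∃ T : MvPolynomial (PIdx m Δ) k, T.IsWeightedHomogeneous (pdeg m Δ) D ∧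
      MvPolynomial.aeval (linePt Δ (rowsX m Δ κ lo hi x0 x1) κ 1 X) T = X ^ q := by
  classical
  have hκm : κ < m := (hΔ κ hκ).2
  have hκ0 : 0 < κ := (hΔ κ hκ).1
  have hdm : ∀ d : Δ, (d : ℕ) ≤ m := fun d => ((hΔ d d.2).2).le
  let K : Δ := ⟨κ, hκ⟩
  let iK : Fin κ := ⟨κ - 1, by omega⟩
  let lK : Fin m := ⟨κ, hκm⟩
  let base : Δ → MvPolynomial (PIdx m Δ) k := fun d => MvPolynomial.X ⟨d, idc (hdm d)⟩
  let sK : MvPolynomial (PIdx m Δ) k :=
    MvPolynomial.X ⟨K, Function.update (idc (hdm K)) iK lK⟩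
  let G : Δ → MvPolynomial (PIdx m Δ) k := fun d =>
    if d = K then base K ^ (D K - q) * sK ^ q else base d ^ D d
  have hbase : ∀ d, (base d).IsWeightedHomogeneous (pdeg m Δ) (Pi.single d 1) := fun d =>
    MvPolynomial.isWeightedHomogeneous_X k (pdeg m Δ) _
  have hsK : sK.IsWeightedHomogeneous (pdeg m Δ) (Pi.single K 1) :=
    MvPolynomial.isWeightedHomogeneous_X k (pdeg m Δ) _
  have hG : ∀ d, (G d).IsWeightedHomogeneous (pdeg m Δ) (Pi.single d (D d)) := by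
    intro d
    by_cases hd : d = K
    · simp only [G, if_pos hd]
      rw [hd]
      have h1 := ((hbase K).pow (D K - q)).mul (hsK.pow q)
      have h2 : (D K - q) • (Pi.single K 1 : Δ → ℕ) + q • (Pi.single K 1 : Δ → ℕ) =
          Pi.single K (D K) := by
        rw [← add_smul, Nat.sub_add_cancel hq, ← Pi.single_smul, smul_eq_mul, mul_one]
      rw [h2] at h1
      exact h1
    · simp only [G, if_neg hd]
      have h1 := (hbase d).pow (D d)
      rw [← Pi.single_smul, smul_eq_mul, mul_one] at h1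
      exact h1
  refine ⟨∏ d, G d, ?_, ?_⟩
  · have h1 := MvPolynomial.IsWeightedHomogeneous.prod Finset.univ G
      (fun d => (Pi.single d (D d) : Δ → ℕ)) (fun d _ => hG d)
    rw [Finset.univ_sum_single D] at h1
    exact h1
  · rw [map_prod, Finset.prod_eq_single K]
    · simp only [G, if_pos rfl]
      rw [map_mul, map_pow, map_pow]
      have h1 : (MvPolynomial.aeval (linePt Δ (rowsX m Δ κ lo hi x0 x1) κ 1 X)) (base K) =
          (1 : R[X]) :=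
        (Spec_evK _ κ hκ _).trans (R3 hΔ hκ hlo hhi hm x0 x1 (hdm K))
      have h2 : (MvPolynomial.aeval (linePt Δ (rowsX m Δ κ lo hi x0 x1) κ 1 X)) sK =
          (X : R[X]) :=
        (Spec_evK _ κ hκ _).trans (R4 hΔ hκ hlo hhi hm x0 x1 (hdm K) iK rfl lK rfl)
      rw [h1, h2, one_pow, one_mul]
    · intro d _ hd
      simp only [G, if_neg hd]
      have hd' : (d : ℕ) ≠ κ := fun h => hd (Subtype.ext h)
      have h1 : (MvPolynomial.aeval (linePt Δ (rowsX m Δ κ lo hi x0 x1) κ 1 X)) (base d) =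
          (1 : R[X]) :=
        (Spec_evd _ κ d hd' _).trans (R1 hΔ hκ hlo hhi hm x0 x1 d (hdm d))
      rw [map_pow, h1, one_pow]
    · intro h
      exact absurd (Finset.mem_univ _) h

/-- a variable of the factor `d` times a filling monomial -/
private theorem Spec_var (hΔ : ∀ d ∈ Δ, 0 < d ∧ d < m) {κ lo hi : ℕ} (hκ : κ ∈ Δ)
    (hlo : lo < κ) (hhi : κ < hi) (hm : hi ≤ m) (x0 x1 : ℕ → ℕ → R) (D : Δ → ℕ)
    (hD : ∀ d, 0 < D d) (d : Δ) (σ : Fin (d : ℕ) → Fin m) (q : ℕ)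
    (hq : q ≤ (D - Pi.single d 1 : Δ → ℕ) ⟨κ, hκ⟩) :
    ∃ T : MvPolynomial (PIdx m Δ) k, T.IsWeightedHomogeneous (pdeg m Δ) D ∧
      MvPolynomial.aeval (linePt Δ (rowsX m Δ κ lo hi x0 x1) κ 1 X) T = X ^ q *
        (MvPolynomial.aeval (linePt Δ (rowsX m Δ κ lo hi x0 x1) κ 1 X) :
          MvPolynomial (PIdx m Δ) k →ₐ[k] R[X]) (MvPolynomial.X ⟨d, σ⟩) := by
  obtain ⟨T, hT, hT'⟩ := Spec_fill (k := k) hΔ hκ hlo hhi hm x0 x1 (D - Pi.single d 1) q hq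
  refine ⟨T * MvPolynomial.X ⟨d, σ⟩, ?_, ?_⟩
  · have h1 := hT.mul (MvPolynomial.isWeightedHomogeneous_X k (pdeg m Δ)
      (⟨d, σ⟩ : PIdx m Δ))
    have h2 : (D - Pi.single d 1 : Δ → ℕ) + pdeg m Δ ⟨d, σ⟩ = D := by
      funext e
      show D e - (Pi.single d 1 : Δ → ℕ) e + (Pi.single d 1 : Δ → ℕ) e = D e
      apply Nat.sub_add_cancel
      by_cases he : e = d
      · rw [he, Pi.single_eq_same]
        exact hD d
      · rw [Pi.single_eq_of_ne he]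
        exact Nat.zero_le _
    rw [h2] at h1
    exact h1
  · rw [map_mul, hT']

private theorem Spec_term (I : Ideal R) (hΔ : ∀ d ∈ Δ, 0 < d ∧ d < m) {κ lo hi : ℕ}
    (hκ : κ ∈ Δ) (hlo : lo < κ) (hlo0 : lo = 0 ∨ lo ∈ Δ)
    (hlo' : ∀ d ∈ Δ, lo < d → κ ≤ d) (hhi : κ < hi) (hhi' : ∀ d ∈ Δ, κ < d → hi ≤ d) (hm : hi ≤ m)
    (hm0 : hi = m ∨ hi ∈ Δ)
    (x0 x1 : ℕ → ℕ → R) (hx0 : ∀ i l, x0 i l ∈ I) (hx1 : ∀ i l, x1 i l ∈ I)
    (i l : ℕ) (hr : IsRoot Δ i l) (hl : l < m) (hne : ¬ (i = κ - 1 ∧ l = κ))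
    (D : Δ → ℕ) (hD : ∀ d, 0 < D d) (p : ℕ) (hp : p + bA κ lo hi (i, l) ≤ D ⟨κ, hκ⟩) :
    ∃ T : MvPolynomial (PIdx m Δ) k, T.IsWeightedHomogeneous (pdeg m Δ) D ∧
      Cong I (MvPolynomial.aeval (linePt Δ (rowsX m Δ κ lo hi x0 x1) κ 1 X) T)
        (X ^ p * (C (x0 i l) + (if bA κ lo hi (i, l) = 1 then X * C (x1 i l) else 0))) := by
  have hdm : ∀ d ∈ Δ, d ≤ m := fun d hd => ((hΔ d hd).2).le
  by_cases hc1 : ∃ d ∈ Δ, d ≠ κ ∧ i < d ∧ d ≤ l
  · obtain ⟨d, hd, hdκ, hid, hdl⟩ := hc1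
    have hb : bA κ lo hi (i, l) = 0 := by
      unfold bA
      apply if_neg
      rintro (⟨h1, h2, h3⟩ | ⟨h1, h2, h3⟩)
      · simp only at h1 h2 h3
        have := hlo' d hd (lt_of_le_of_lt h2 hid)
        omega
      · simp only at h1 h2 h3
        have := hhi' d hd (by omega)
        omega
    rw [hb] at hp ⊢
    obtain ⟨T, hT, hT'⟩ := Spec_var (k := k) hΔ hκ hlo hhi hm x0 x1 D hD ⟨d, hd⟩
      (Function.update (idc (hdm d hd)) ⟨i, hid⟩ ⟨l, hl⟩) p (by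
        have h1 : (Pi.single (⟨d, hd⟩ : Δ) 1 : Δ → ℕ) ⟨κ, hκ⟩ = 0 :=
          Pi.single_eq_of_ne (fun h => hdκ (congrArg Subtype.val h).symm) _
        show p ≤ D ⟨κ, hκ⟩ - (Pi.single (⟨d, hd⟩ : Δ) 1 : Δ → ℕ) ⟨κ, hκ⟩
        rw [h1]
        exact hp)
    refine ⟨T, hT, ?_⟩
    rw [hT', Spec_evd _ κ ⟨d, hd⟩ hdκ, if_neg (by norm_num), add_zero]
    exact Spec_cmul _ (R2 I hΔ hκ hlo hhi hm x0 x1 hx0 hx1 d hd hdκ (hdm d hd) ⟨i, hid⟩ ⟨l, hl⟩
      hdl)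
  · push Not at hc1
    obtain ⟨d, hd, hid, hdl⟩ := hr
    have hdκ : d = κ := by
      by_contra h
      exact absurd hdl (not_le.2 (hc1 d hd h hid))
    subst hdκ
    have hi1 : lo ≤ i := by
      rcases hlo0 with h | h
      · omega
      · by_contra h2
        have h3 := hc1 lo h (ne_of_lt hlo) (by omega)
        omega
    have hl1 : l < hi := by
      rcases hm0 with h | h
      · omega
      · by_contra h2
        have h3 := hc1 hi h (ne_of_gt hhi) (by omega)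
        omega
    have hK : (D - Pi.single (⟨d, hd⟩ : Δ) 1 : Δ → ℕ) ⟨d, hd⟩ = D ⟨d, hd⟩ - 1 := by
      show D ⟨d, hd⟩ - (Pi.single (⟨d, hd⟩ : Δ) 1 : Δ → ℕ) ⟨d, hd⟩ = D ⟨d, hd⟩ - 1
      rw [Pi.single_eq_same]
    have hDK := hD ⟨d, hd⟩
    by_cases hlκ : l = d
    · -- type A, row
      have hi2 : i < d - 1 := by omega
      have hb : bA d lo hi (i, l) = 1 := by
        unfold bA
        exact if_pos (Or.inl ⟨hlκ, hi1, hi2⟩)
      rw [hb] at hp ⊢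
      obtain ⟨T, hT, hT'⟩ := Spec_var (k := k) hΔ hd hlo hhi hm x0 x1 D hD ⟨d, hd⟩
        (Function.update (idc (hdm d hd)) ⟨i, hid⟩ ⟨l, hl⟩) p (by rw [hK]; omega)
      refine ⟨T, hT, ?_⟩
      rw [hT', Spec_evK _ d hd, if_pos rfl]
      apply Spec_cmul
      have h5 := R5 I hΔ hd hlo hlo' hhi hm x0 x1 hx0 hx1 (hdm d hd) ⟨i, hid⟩ hi1 hi2 ⟨l, hl⟩ hlκ
      have hll : (C (x0 i l) + X * C (x1 i l) : R[X]) = C (x0 i d) + X * C (x1 i d) := by
        rw [hlκ]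
      rw [hll]
      exact h5
    · have hl2 : d < l := by omega
      by_cases hiκ : i = d - 1
      · -- type A, column
        have hb : bA d lo hi (i, l) = 1 := by
          unfold bA
          exact if_pos (Or.inr ⟨hiκ, hl2, hl1⟩)
        rw [hb] at hp ⊢
        obtain ⟨T, hT, hT'⟩ := Spec_var (k := k) hΔ hd hlo hhi hm x0 x1 D hD ⟨d, hd⟩
          (Function.update (idc (hdm d hd)) ⟨i, hid⟩ ⟨l, hl⟩) p (by rw [hK]; omega)
        refine ⟨T, hT, ?_⟩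
        rw [hT', Spec_evK _ d hd, if_pos rfl]
        apply Spec_cmul
        have h6 := R6 hΔ hd hlo hhi hhi' hm x0 x1 (hdm d hd) ⟨i, hid⟩ hiκ ⟨l, hl⟩ hl2 hl1
        rw [h6, hiκ]
        exact Spec_crefl I _
      · have hi2 : i < d - 1 := by omega
        have hb : bA d lo hi (i, l) = 0 := by
          unfold bA
          apply if_neg
          rintro (⟨h1, h2, h3⟩ | ⟨h1, h2, h3⟩)
          · exact hlκ h1
          · exact hiκ h1
        rw [hb] at hp ⊢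
        rw [if_neg (by norm_num), add_zero]
        by_cases hpD : p + 1 ≤ D ⟨d, hd⟩
        · obtain ⟨T, hT, hT'⟩ := Spec_var (k := k) hΔ hd hlo hhi hm x0 x1 D hD ⟨d, hd⟩
            (Function.update (idc (hdm d hd)) ⟨i, hid⟩ ⟨l, hl⟩) p (by rw [hK]; omega)
          refine ⟨T, hT, ?_⟩
          rw [hT', Spec_evK _ d hd]
          exact Spec_cmul _ (R7 I hΔ hd hlo hhi hm x0 x1 hx0 hx1 (hdm d hd) ⟨i, hid⟩ hi2 ⟨l, hl⟩
            hl2)
        · have hp' : p = (p - 1) + 1 := by omega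
          have hd1 : d - 1 < d := by omega
          have hdm' : d < m := (hΔ d hd).2
          obtain ⟨T, hT, hT'⟩ := Spec_var (k := k) hΔ hd hlo hhi hm x0 x1 D hD ⟨d, hd⟩
            (Function.update (Function.update (idc (hdm d hd)) ⟨i, hid⟩ ⟨l, hl⟩)
              ⟨d - 1, hd1⟩ ⟨d, hdm'⟩) (p - 1) (by rw [hK]; omega)
          refine ⟨T, hT, ?_⟩
          rw [hT', Spec_evK _ d hd]
          have h8 := R8 I hΔ hd hlo hhi hm x0 x1 hx0 hx1 (hdm d hd) ⟨i, hid⟩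
            ⟨d - 1, hd1⟩ hi2 rfl ⟨l, hl⟩ ⟨d, hdm'⟩ hl2 rfl
          have h9 : (X : R[X]) ^ p * C (x0 i l) = X ^ (p - 1) * (X * C (x0 i l)) := by
            rw [← mul_assoc, ← pow_succ, ← hp']
          rw [h9]
          exact Spec_cmul _ h8

end

theorem special3 {k R : Type*} [Field k] [CommRing R] [Algebra k R] (I : Ideal R) {m : ℕ}
    {Δ : Finset ℕ} (hΔ : ∀ d ∈ Δ, 0 < d ∧ d < m) {κ lo hi : ℕ} (hκ : κ ∈ Δ) (hlo : lo < κ)
    (hlo0 : lo = 0 ∨ lo ∈ Δ)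
    (hlo' : ∀ d ∈ Δ, lo < d → κ ≤ d) (hhi : κ < hi) (hhi' : ∀ d ∈ Δ, κ < d → hi ≤ d) (hm : hi ≤ m)
    (hm0 : hi = m ∨ hi ∈ Δ)
    (x0 x1 : ℕ → ℕ → R) (hx0 : ∀ i l, x0 i l ∈ I) (hx1 : ∀ i l, x1 i l ∈ I)
    (r c : ℕ) (y : Fin r → ℕ × ℕ)
    (hy : ∀ v, IsRoot Δ (y v).1 (y v).2 ∧ (y v).2 < m ∧ y v ≠ (κ - 1, κ))
    (D : Fin c → Δ → ℕ) (hD : ∀ j d, 0 < D j d) (s : Fin r → Fin c → Option ℕ)
    (hs : ∀ v j p, s v j = some p → p + bA κ lo hi (y v) ≤ D j ⟨κ, hκ⟩) :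
    ∃ F0 : Fin c → MvPolynomial (PIdx m Δ) k,
      (∀ j, (F0 j).IsWeightedHomogeneous (pdeg m Δ) (D j)) ∧
      ∀ j, Cong I (MvPolynomial.aeval (linePt Δ (rowsX m Δ κ lo hi x0 x1) κ 1 X) (F0 j))
        (∑ v, (s v j).elim 0 (fun p => X ^ p * (C (x0 (y v).1 (y v).2) +
          (if bA κ lo hi (y v) = 1 then X * C (x1 (y v).1 (y v).2) else 0)))) := by
  have hterm : ∀ (v : Fin r) (j : Fin c) (p : ℕ), ∃ T : MvPolynomial (PIdx m Δ) k,
      s v j = some p → T.IsWeightedHomogeneous (pdeg m Δ) (D j) ∧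
      Cong I (MvPolynomial.aeval (linePt Δ (rowsX m Δ κ lo hi x0 x1) κ 1 X) T)
        (X ^ p * (C (x0 (y v).1 (y v).2) +
          (if bA κ lo hi (y v) = 1 then X * C (x1 (y v).1 (y v).2) else 0))) := by
    intro v j p
    by_cases h : s v j = some p
    · obtain ⟨h1, h2, h3⟩ := hy v
      obtain ⟨T, hT, hT'⟩ := Spec_term (k := k) I hΔ hκ hlo hlo0 hlo' hhi hhi' hm hm0 x0 x1 hx0 hx1
        (y v).1 (y v).2 h1 h2 (fun h => h3 (Prod.ext h.1 h.2)) (D j) (hD j) p (hs v j p h)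
      exact ⟨T, fun _ => ⟨hT, hT'⟩⟩
    · exact ⟨0, fun h' => absurd h' h⟩
  choose T hT using hterm
  refine ⟨fun j => ∑ v, (s v j).elim 0 (fun p => T v j p), ?_, ?_⟩
  · intro j
    apply MvPolynomial.IsWeightedHomogeneous.sum
    intro v _
    rcases h : s v j with _ | p
    · exact MvPolynomial.isWeightedHomogeneous_zero k (pdeg m Δ) (D j)
    · exact (hT v j p h).1
  · intro j
    rw [map_sum]
    apply Spec_csum
    intro v _
    rcases h : s v j with _ | p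
    · show Cong I (MvPolynomial.aeval _ 0) 0
      rw [map_zero]
      exact Spec_crefl I 0
    · exact (hT v j p h).2

end Pool.Agent.Lib.MP_1e3e9c_ag.FL
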